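import Pool.Agent.AK.Lam

set_option autoImplicit false

/-!
# Sets with a given bounding box
-/

namespace Pool.Agent.AK

open Finset Classical

variable {ι : Type*}

theorem mn_mem [Nonempty ι] (f : ι → ℝ) {R : Finset ι} (h : R.Nonempty) : mn f R ∈ R := by
  rw [mn, dif_pos h]
  exact (R.exists_min_image f h).choose_spec.1

theorem mn_le [Nonempty ι] (f : ι → ℝ) {R : Finset ι} {q : ι} (h : q ∈ R) :
    f (mn f R) ≤ f q := by
  have hR : R.Nonempty := ⟨q, h⟩
  rw [mn, dif_pos hR]
  exact (R.exists_min_image f hR).choose_spec.2 q h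

theorem mn_eq [Nonempty ι] {f : ι → ℝ} (hf : Function.Injective f) {R : Finset ι} {v : ι}
    (h : v ∈ R) (hv : ∀ q ∈ R, q ≠ v → f v < f q) : mn f R = v := by
  have _ := hf
  by_contra hne
  exact absurd (mn_le f h) (not_le.2 (hv _ (mn_mem f ⟨v, h⟩) hne))

theorem mn_lt [Nonempty ι] {f : ι → ℝ} (hf : Function.Injective f) {R : Finset ι} {q : ι}
    (h : q ∈ R) (hne : q ≠ mn f R) : f (mn f R) < f q :=
  lt_of_le_of_ne (mn_le f h) (fun h' => hne (hf h').symm)

/-- a function of the bounding box that is nonnegative on all sets has a nonnegative sum -/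
theorem box_sum [Fintype ι] [Nonempty ι] (κ : ℕ) (x y : ι → ℝ) (hx : Function.Injective x)
    (hy : Function.Injective y) (c : ι → ι → ι → ι → ℤ)
    (hc : ∀ R : Finset ι, R.Nonempty → 0 ≤ c (mn x R) (mn y R) (mn (-x) R) (mn (-y) R)) :
    0 ≤ ∑ R : Finset ι with R.Nonempty,
      om κ (#R) * c (mn x R) (mn y R) (mn (-x) R) (mn (-y) R) := by
  have hx' : Function.Injective (-x) := fun a b h => hx (neg_injective h)
  have hy' : Function.Injective (-y) := fun a b h => hy (neg_injective h)
  rw [← sum_fiberwise _ (fun R : Finset ι => (mn x R, mn y R, mn (-x) R, mn (-y) R))]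
  apply sum_nonneg
  rintro ⟨l, b, r, t⟩ -
  by_cases hex : ∃ R0 : Finset ι, R0.Nonempty ∧
      (mn x R0, mn y R0, mn (-x) R0, mn (-y) R0) = (l, b, r, t)
  swap
  · rw [filter_eq_empty_iff.2, sum_empty]
    intro R hR h
    exact hex ⟨R, (mem_filter.1 hR).2, h⟩
  obtain ⟨R0, h0, h0'⟩ := hex
  simp only [Prod.mk.injEq] at h0'
  obtain ⟨g1, g2, g3, g4⟩ := h0'
  have hc0 : 0 ≤ c l b r t := by
    have := hc R0 h0
    rwa [g1, g2, g3, g4] at this
  set D : Finset ι := {l, b, r, t} with hD
  set F : Finset ι := {q | x l < x q ∧ x q < x r ∧ y b < y q ∧ y q < y t} with hF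
  have hmF : ∀ q, q ∈ F ↔ x l < x q ∧ x q < x r ∧ y b < y q ∧ y q < y t := by
    intro q
    simp [hF]
  have hmD : ∀ q, q ∈ D ↔ q = l ∨ q = b ∨ q = r ∨ q = t := by
    intro q
    simp [hD]
  have hD0 : ∀ q ∈ D, q ∈ R0 := by
    intro q hq
    rcases (hmD q).1 hq with h | h | h | h
    · rw [h, ← g1]; exact mn_mem _ h0
    · rw [h, ← g2]; exact mn_mem _ h0
    · rw [h, ← g3]; exact mn_mem _ h0
    · rw [h, ← g4]; exact mn_mem _ h0
  have k1 : ∀ q ∈ D, q ≠ l → x l < x q := by
    intro q hq hne
    have := mn_lt hx (hD0 q hq) (by rw [g1]; exact hne)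
    rwa [g1] at this
  have k2 : ∀ q ∈ D, q ≠ b → y b < y q := by
    intro q hq hne
    have := mn_lt hy (hD0 q hq) (by rw [g2]; exact hne)
    rwa [g2] at this
  have k3 : ∀ q ∈ D, q ≠ r → x q < x r := by
    intro q hq hne
    have := mn_lt hx' (hD0 q hq) (by rw [g3]; exact hne)
    rw [g3, Pi.neg_apply, Pi.neg_apply] at this
    linarith
  have k4 : ∀ q ∈ D, q ≠ t → y q < y t := by
    intro q hq hne
    have := mn_lt hy' (hD0 q hq) (by rw [g4]; exact hne)
    rw [g4, Pi.neg_apply, Pi.neg_apply] at this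
    linarith
  have hdis : Disjoint D F := by
    rw [disjoint_left]
    intro q hq hq'
    obtain ⟨a1, a2, a3, a4⟩ := (hmF q).1 hq'
    rcases (hmD q).1 hq with h | h | h | h
    · rw [h] at a1; exact lt_irrefl _ a1
    · rw [h] at a3; exact lt_irrefl _ a3
    · rw [h] at a2; exact lt_irrefl _ a2
    · rw [h] at a4; exact lt_irrefl _ a4
  have hset : (({R : Finset ι | R.Nonempty} : Finset (Finset ι)).filter
      (fun R : Finset ι => (mn x R, mn y R, mn (-x) R, mn (-y) R) = (l, b, r, t))) =
      ({R | D ⊆ R ∧ R ⊆ D ∪ F} : Finset (Finset ι)) := by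
    ext R
    simp only [mem_filter, mem_univ, true_and, Prod.mk.injEq]
    constructor
    · rintro ⟨hR, e1, e2, e3, e4⟩
      refine ⟨?_, ?_⟩
      · intro q hq
        rcases (hmD q).1 hq with h | h | h | h
        · rw [h, ← e1]; exact mn_mem _ hR
        · rw [h, ← e2]; exact mn_mem _ hR
        · rw [h, ← e3]; exact mn_mem _ hR
        · rw [h, ← e4]; exact mn_mem _ hR
      · intro q hq
        rw [mem_union]
        by_cases hqD : q ∈ D
        · exact Or.inl hqD
        · right
          rw [hmD] at hqD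
          push Not at hqD
          obtain ⟨n1, n2, n3, n4⟩ := hqD
          rw [hmF]
          refine ⟨?_, ?_, ?_, ?_⟩
          · have := mn_lt hx hq (by rw [e1]; exact n1)
            rwa [e1] at this
          · have := mn_lt hx' hq (by rw [e3]; exact n3)
            rw [e3, Pi.neg_apply, Pi.neg_apply] at this
            linarith
          · have := mn_lt hy hq (by rw [e2]; exact n2)
            rwa [e2] at this
          · have := mn_lt hy' hq (by rw [e4]; exact n4)
            rw [e4, Pi.neg_apply, Pi.neg_apply] at this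
            linarith
    · rintro ⟨h1, h2⟩
      have hl : l ∈ R := h1 ((hmD l).2 (Or.inl rfl))
      have hb : b ∈ R := h1 ((hmD b).2 (Or.inr (Or.inl rfl)))
      have hr : r ∈ R := h1 ((hmD r).2 (Or.inr (Or.inr (Or.inl rfl))))
      have ht : t ∈ R := h1 ((hmD t).2 (Or.inr (Or.inr (Or.inr rfl))))
      refine ⟨⟨l, hl⟩, ?_, ?_, ?_, ?_⟩
      · apply mn_eq hx hl
        intro q hq hne
        rcases mem_union.1 (h2 hq) with h | h
        · exact k1 q h hne
        · exact ((hmF q).1 h).1
      · apply mn_eq hy hb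
        intro q hq hne
        rcases mem_union.1 (h2 hq) with h | h
        · exact k2 q h hne
        · exact ((hmF q).1 h).2.2.1
      · apply mn_eq hx' hr
        intro q hq hne
        rw [Pi.neg_apply, Pi.neg_apply]
        rcases mem_union.1 (h2 hq) with h | h
        · linarith [k3 q h hne]
        · linarith [((hmF q).1 h).2.1]
      · apply mn_eq hy' ht
        intro q hq hne
        rw [Pi.neg_apply, Pi.neg_apply]
        rcases mem_union.1 (h2 hq) with h | h
        · linarith [k4 q h hne]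
        · linarith [((hmF q).1 h).2.2.2]
  have hsum : ∑ R ∈ (({R : Finset ι | R.Nonempty} : Finset (Finset ι)).filter
      (fun R : Finset ι => (mn x R, mn y R, mn (-x) R, mn (-y) R) = (l, b, r, t))),
      om κ (#R) * c (mn x R) (mn y R) (mn (-x) R) (mn (-y) R) =
      (∑ R ∈ (({R : Finset ι | R.Nonempty} : Finset (Finset ι)).filter
        (fun R : Finset ι => (mn x R, mn y R, mn (-x) R, mn (-y) R) = (l, b, r, t))),
        om κ (#R)) * c l b r t := by
    rw [sum_mul]
    apply sum_congr rfl
    intro R hR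
    have h1 := (mem_filter.1 hR).2
    simp only [Prod.mk.injEq] at h1
    rw [h1.1, h1.2.1, h1.2.2.1, h1.2.2.2]
  refine (mul_nonneg ?_ hc0).trans_eq hsum.symm
  rw [hset, lam_between κ D F hdis]
  apply Df_nonneg
  exact card_le_four

end Pool.Agent.AK
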