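import Pool.Agent.AK.BoxA

set_option autoImplicit false

/-!
# Two sums over all subsets
-/

namespace Pool.Agent.AK

open Finset Classical

variable {ι : Type*}

private theorem bx_set1 [Fintype ι] [Nonempty ι] {x y : ι → ℝ} (hx : Function.Injective x)
    (hy : Function.Injective y) {R : Finset ι} {v : ι} :
    (R.Nonempty ∧ mn (-x) R = v ∧ mn y R = v) ↔ ({v} ⊆ R ∧ R ⊆ {v} ∪ Q1 x y v) := by
  have hx' : Function.Injective (-x) := fun a b h => hx (by simpa using h)
  constructor
  · rintro ⟨hR, h1, h2⟩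
    refine ⟨?_, ?_⟩
    · rw [Finset.singleton_subset_iff, ← h1]
      exact mn_mem _ hR
    · intro q hq
      by_cases hqv : q = v
      · simp [hqv]
      · have h3 := mn_lt hx' hq (by rw [h1]; exact hqv)
        have h4 := mn_lt hy hq (by rw [h2]; exact hqv)
        rw [h1] at h3
        rw [h2] at h4
        simp only [Pi.neg_apply, neg_lt_neg_iff] at h3
        simp [Q1, h3, h4]
  · rintro ⟨h1, h2⟩
    rw [Finset.singleton_subset_iff] at h1
    have h3 : ∀ q ∈ R, q ≠ v → x q < x v ∧ y v < y q := by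
      intro q hq hqv
      have := h2 hq
      simpa [Q1, hqv] using this
    refine ⟨⟨v, h1⟩, ?_, ?_⟩
    · refine mn_eq hx' h1 (fun q hq hqv => ?_)
      simpa using (h3 q hq hqv).1
    · exact mn_eq hy h1 (fun q hq hqv => (h3 q hq hqv).2)

/-- sets whose rightmost point is the lowest one -/
theorem sum_eqi [Fintype ι] [Nonempty ι] (κ : ℕ) (x y : ι → ℝ) (hx : Function.Injective x)
    (hy : Function.Injective y) :
    ∑ R : Finset ι with R.Nonempty, om κ (#R) * eqi (mn (-x) R) (mn y R) =
      ∑ v, (((#(Q1 x y v) - κ).choose 2 : ℕ) : ℤ) := by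
  have e1 : ∀ R : Finset ι, om κ (#R) * eqi (mn (-x) R) (mn y R) =
      ∑ v, if mn (-x) R = v ∧ mn y R = v then om κ (#R) else 0 := by
    intro R
    by_cases h : mn (-x) R = mn y R
    · rw [Finset.sum_eq_single (mn y R)]
      · simp [eqi, h]
      · intro b _ hb
        rw [if_neg]
        rintro ⟨-, h2⟩
        exact hb h2.symm
      · intro h'
        exact absurd (Finset.mem_univ _) h'
    · rw [Finset.sum_eq_zero]
      · simp [eqi, h]
      · intro v _
        rw [if_neg]
        rintro ⟨h1, h2⟩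
        exact h (h1.trans h2.symm)
  rw [Finset.sum_congr rfl (fun R _ => e1 R), Finset.sum_comm]
  refine Finset.sum_congr rfl (fun v _ => ?_)
  rw [← Finset.sum_filter, Finset.filter_filter]
  have e2 : Finset.filter (fun R : Finset ι => R.Nonempty ∧ mn (-x) R = v ∧ mn y R = v)
      Finset.univ = Finset.filter (fun R : Finset ι => {v} ⊆ R ∧ R ⊆ {v} ∪ Q1 x y v)
      Finset.univ := by
    ext R
    simp only [Finset.mem_filter, Finset.mem_univ, true_and]
    exact bx_set1 hx hy
  rw [e2, lam_between κ {v} (Q1 x y v) (by simp [Q1]), Finset.card_singleton, Df1]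

private theorem bx_set3 [Fintype ι] [Nonempty ι] {x y : ι → ℝ} (hx : Function.Injective x)
    (hy : Function.Injective y) {R : Finset ι} {l v r : ι} (h1 : x l < x v) (h2 : x v < x r)
    (h3 : y v < y l) (h4 : y v < y r) :
    (R.Nonempty ∧ mn y R = v ∧ mn (-x) R = r ∧ mn x R = l) ↔
      ({l, v, r} ⊆ R ∧ R ⊆ {l, v, r} ∪ ({q | y v < y q ∧ x l < x q ∧ x q < x r} : Finset ι)) := by
  have hx' : Function.Injective (-x) := fun a b h => hx (by simpa using h)
  constructor
  · rintro ⟨hR, g1, g2, g3⟩
    have m1 : v ∈ R := by rw [← g1]; exact mn_mem _ hR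
    have m2 : r ∈ R := by rw [← g2]; exact mn_mem _ hR
    have m3 : l ∈ R := by rw [← g3]; exact mn_mem _ hR
    refine ⟨?_, ?_⟩
    · intro q hq
      simp only [Finset.mem_insert, Finset.mem_singleton] at hq
      rcases hq with hq | hq | hq
      · rw [hq]; exact m3
      · rw [hq]; exact m1
      · rw [hq]; exact m2
    · intro q hq
      by_cases a1 : q = v
      · simp [a1]
      by_cases a2 : q = r
      · simp [a2]
      by_cases a3 : q = l
      · simp [a3]
      have b1 := mn_lt hy hq (by rw [g1]; exact a1)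
      have b2 := mn_lt hx' hq (by rw [g2]; exact a2)
      have b3 := mn_lt hx hq (by rw [g3]; exact a3)
      rw [g1] at b1
      rw [g2] at b2
      rw [g3] at b3
      simp only [Pi.neg_apply, neg_lt_neg_iff] at b2
      simp [b1, b2, b3]
  · rintro ⟨g1, g2⟩
    have m1 : v ∈ R := g1 (by simp)
    have m2 : r ∈ R := g1 (by simp)
    have m3 : l ∈ R := g1 (by simp)
    have key : ∀ q ∈ R, q = l ∨ q = v ∨ q = r ∨ (y v < y q ∧ x l < x q ∧ x q < x r) := by
      intro q hq
      have := g2 hq
      simp only [Finset.mem_union, Finset.mem_insert, Finset.mem_singleton, Finset.mem_filter,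
        Finset.mem_univ, true_and] at this
      tauto
    refine ⟨⟨v, m1⟩, ?_, ?_, ?_⟩
    · refine mn_eq hy m1 (fun q hq hne => ?_)
      rcases key q hq with h | h | h | h
      · rw [h]; exact h3
      · exact absurd h hne
      · rw [h]; exact h4
      · exact h.1
    · refine mn_eq hx' m2 (fun q hq hne => ?_)
      simp only [Pi.neg_apply, neg_lt_neg_iff]
      rcases key q hq with h | h | h | h
      · rw [h]; exact h1.trans h2
      · rw [h]; exact h2
      · exact absurd h hne
      · exact h.2.2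
    · refine mn_eq hx m3 (fun q hq hne => ?_)
      rcases key q hq with h | h | h | h
      · exact absurd h hne
      · rw [h]; exact h1
      · rw [h]; exact h1.trans h2
      · exact h.2.1

/-- sets with a non-acute triangle (leftmost, lowest, rightmost point) -/
theorem sum_nbq [Fintype ι] [Nonempty ι] (κ : ℕ) (x y : ι → ℝ) (hx : Function.Injective x)
    (hy : Function.Injective y) :
    ∑ R : Finset ι with R.Nonempty, om κ (#R) * nbq x y (mn x R) (mn y R) (mn (-x) R) =
      ∑ v, ((#(NB κ x y v) : ℕ) : ℤ) := by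
  have e1 : ∀ R : Finset ι, om κ (#R) * nbq x y (mn x R) (mn y R) (mn (-x) R) =
      ∑ v, ∑ p : ι × ι, if mn y R = v ∧ mn (-x) R = p.1 ∧ mn x R = p.2 then
        om κ (#R) * nbq x y p.2 v p.1 else 0 := by
    intro R
    rw [Finset.sum_eq_single (mn y R)]
    · rw [Finset.sum_eq_single (mn (-x) R, mn x R)]
      · simp
      · intro p _ hp
        rw [if_neg]
        rintro ⟨-, h1, h2⟩
        exact hp (Prod.ext h1.symm h2.symm)
      · intro h'
        exact absurd (Finset.mem_univ _) h'
    · intro b _ hb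
      refine Finset.sum_eq_zero (fun p _ => ?_)
      rw [if_neg]
      rintro ⟨h1, -⟩
      exact hb h1.symm
    · intro h'
      exact absurd (Finset.mem_univ _) h'
  rw [Finset.sum_congr rfl (fun R _ => e1 R), Finset.sum_comm]
  refine Finset.sum_congr rfl (fun v _ => ?_)
  rw [Finset.sum_comm]
  have e3 : ((#(NB κ x y v) : ℕ) : ℤ) = ∑ p : ι × ι, if p ∈ NB κ x y v then (1 : ℤ) else 0 := by
    simp
  rw [e3]
  refine Finset.sum_congr rfl (fun p _ => ?_)
  rw [← Finset.sum_filter, Finset.filter_filter, ← Finset.sum_mul]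
  by_cases hc : x p.2 < x v ∧ x v < x p.1 ∧ y v < y p.2 ∧ y v < y p.1 ∧ dt x y v p.1 p.2 ≤ 0
  · have hn : nbq x y p.2 v p.1 = 1 := by simp only [nbq, if_pos hc]
    obtain ⟨h1, h2, h3, h4, h5⟩ := hc
    have e2 : Finset.filter (fun R : Finset ι => R.Nonempty ∧ mn y R = v ∧ mn (-x) R = p.1 ∧
        mn x R = p.2) Finset.univ = Finset.filter (fun R : Finset ι => {p.2, v, p.1} ⊆ R ∧
          R ⊆ {p.2, v, p.1} ∪ ({q | y v < y q ∧ x p.2 < x q ∧ x q < x p.1} : Finset ι))
            Finset.univ := by
      ext R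
      simp only [Finset.mem_filter, Finset.mem_univ, true_and]
      exact bx_set3 hx hy h1 h2 h3 h4
    have h6 : #({p.2, v, p.1} : Finset ι) = 3 := by
      refine Finset.card_eq_three.2 ⟨p.2, v, p.1, ?_, ?_, ?_, rfl⟩
      · intro h; rw [h] at h1; exact lt_irrefl _ h1
      · intro h; rw [h] at h1; exact lt_irrefl _ (h1.trans h2)
      · intro h; rw [h] at h2; exact lt_irrefl _ h2
    have hdis : Disjoint ({p.2, v, p.1} : Finset ι)
        ({q | y v < y q ∧ x p.2 < x q ∧ x q < x p.1} : Finset ι) := by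
      rw [Finset.disjoint_left]
      intro q hq hq'
      simp only [Finset.mem_insert, Finset.mem_singleton] at hq
      simp only [Finset.mem_filter, Finset.mem_univ, true_and] at hq'
      rcases hq with hq | hq | hq
      · rw [hq] at hq'; exact lt_irrefl _ hq'.2.1
      · rw [hq] at hq'; exact lt_irrefl _ hq'.1
      · rw [hq] at hq'; exact lt_irrefl _ hq'.2.2
    rw [e2, lam_between κ _ _ hdis, h6, Df3, hn, mul_one]
    have hm : p ∈ NB κ x y v ↔
        κ ≤ #({q | y v < y q ∧ x p.2 < x q ∧ x q < x p.1} : Finset ι) := by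
      simp only [NB, Q0, Q1, Finset.mem_filter, Finset.mem_univ, true_and]
      tauto
    by_cases hk : κ ≤ #({q | y v < y q ∧ x p.2 < x q ∧ x q < x p.1} : Finset ι)
    · rw [if_pos hk, if_pos (hm.2 hk)]
    · rw [if_neg hk, if_neg (fun h => hk (hm.1 h))]
  · have hn : nbq x y p.2 v p.1 = 0 := by simp only [nbq, if_neg hc]
    rw [hn, mul_zero, if_neg]
    intro h
    apply hc
    simp only [NB, Q0, Q1, Finset.mem_filter, Finset.mem_univ, true_and] at h
    tauto

end Pool.Agent.AK
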