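import Pool.Agent.AK.BoxB

set_option autoImplicit false

/-!
# The box inequality
-/

namespace Pool.Agent.AK

open Finset Classical

variable {ι : Type*}

private theorem eqi_nn (p q : ι) : 0 ≤ eqi p q := by
  unfold eqi
  split_ifs <;> norm_num

private theorem nbq_nn (x y : ι → ℝ) (l v r : ι) : 0 ≤ nbq x y l v r := by
  unfold nbq
  split_ifs <;> norm_num

private theorem eqi_one {p q : ι} (h : p = q) : eqi p q = 1 := by
  unfold eqi
  rw [if_pos h]

/-- the quadrilateral (left, lowest, right, highest point) has a non-acute angle or two of the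
four points coincide -/
theorem quad [Nonempty ι] (x y : ι → ℝ) (hx : Function.Injective x)
    (hy : Function.Injective y) (R : Finset ι) (hR : R.Nonempty) :
    1 ≤ eqi (mn (-x) R) (mn y R) + eqi (mn (-y) R) (mn (-x) R) + eqi (mn x R) (mn (-y) R) +
      eqi (mn y R) (mn x R) + nbq x y (mn x R) (mn y R) (mn (-x) R) +
      nbq y (-x) (mn y R) (mn (-x) R) (mn (-y) R) +
      nbq (-x) (-y) (mn (-x) R) (mn (-y) R) (mn x R) +
      nbq (-y) x (mn (-y) R) (mn x R) (mn y R) := by
  have hnx : Function.Injective (-x) := fun a b h => hx (neg_injective h)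
  have hny : Function.Injective (-y) := fun a b h => hy (neg_injective h)
  have hl : mn x R ∈ R := mn_mem x hR
  have hb : mn y R ∈ R := mn_mem y hR
  have hr : mn (-x) R ∈ R := mn_mem (-x) hR
  have ht : mn (-y) R ∈ R := mn_mem (-y) hR
  have Lx : ∀ q ∈ R, q ≠ mn x R → x (mn x R) < x q := fun q h1 h2 => mn_lt hx h1 h2
  have Ly : ∀ q ∈ R, q ≠ mn y R → y (mn y R) < y q := fun q h1 h2 => mn_lt hy h1 h2
  have Lnx : ∀ q ∈ R, q ≠ mn (-x) R → x q < x (mn (-x) R) := fun q h1 h2 =>
    neg_lt_neg_iff.mp (mn_lt hnx h1 h2)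
  have Lny : ∀ q ∈ R, q ≠ mn (-y) R → y q < y (mn (-y) R) := fun q h1 h2 =>
    neg_lt_neg_iff.mp (mn_lt hny h1 h2)
  generalize mn x R = l at *
  generalize mn y R = b at *
  generalize mn (-x) R = r at *
  generalize mn (-y) R = t at *
  have e1 := eqi_nn r b
  have e2 := eqi_nn t r
  have e3 := eqi_nn l t
  have e4 := eqi_nn b l
  have n1 := nbq_nn x y l b r
  have n2 := nbq_nn y (-x) b r t
  have n3 := nbq_nn (-x) (-y) r t l
  have n4 := nbq_nn (-y) x t l b
  by_cases c1 : r = b
  · have := eqi_one c1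
    linarith
  by_cases c2 : t = r
  · have := eqi_one c2
    linarith
  by_cases c3 : l = t
  · have := eqi_one c3
    linarith
  by_cases c4 : b = l
  · have := eqi_one c4
    linarith
  have h1 : x l < x b := Lx b hb c4
  have h2 : x b < x r := Lnx b hb (fun h => c1 h.symm)
  have h3 : y b < y l := Ly l hl (fun h => c4 h.symm)
  have h4 : y b < y r := Ly r hr c1
  have h5 : x l < x t := Lx t ht (fun h => c3 h.symm)
  have h6 : x t < x r := Lnx t ht c2
  have h7 : y l < y t := Lny l hl c3
  have h8 : y r < y t := Lny r hr (fun h => c2 h.symm)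
  by_contra hcon
  push Not at hcon
  have m1 : nbq x y l b r ≤ 0 := by linarith
  have m2 : nbq y (-x) b r t ≤ 0 := by linarith
  have m3 : nbq (-x) (-y) r t l ≤ 0 := by linarith
  have m4 : nbq (-y) x t l b ≤ 0 := by linarith
  have d1 : 0 < dt x y b r l := by
    by_contra hd
    push Not at hd
    unfold nbq at m1
    rw [if_pos ⟨h1, h2, h3, h4, hd⟩] at m1
    norm_num at m1
  have d2 : 0 < dt y (-x) r t b := by
    by_contra hd
    push Not at hd
    unfold nbq at m2
    rw [if_pos ⟨h4, h8, neg_lt_neg h2, neg_lt_neg h6, hd⟩] at m2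
    norm_num at m2
  have d3 : 0 < dt (-x) (-y) t l r := by
    by_contra hd
    push Not at hd
    unfold nbq at m3
    rw [if_pos ⟨neg_lt_neg h6, neg_lt_neg h5, neg_lt_neg h8, neg_lt_neg h7, hd⟩] at m3
    norm_num at m3
  have d4 : 0 < dt (-y) x l b t := by
    by_contra hd
    push Not at hd
    unfold nbq at m4
    rw [if_pos ⟨neg_lt_neg h7, neg_lt_neg h3, h5, h1, hd⟩] at m4
    norm_num at m4
  unfold dt at d1 d2 d3 d4
  simp only [Pi.neg_apply] at d2 d3 d4
  have a1 : 0 < x b - x l := by linarith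
  have a2 : 0 < x r - x b := by linarith
  have b1 : 0 < y l - y b := by linarith
  have b2 : 0 < y r - y b := by linarith
  have a3 : 0 < x t - x l := by linarith
  have a4 : 0 < x r - x t := by linarith
  have b3 : 0 < y t - y l := by linarith
  have b4 : 0 < y t - y r := by linarith
  have i1 : (x b - x l) * (x r - x b) < (y l - y b) * (y r - y b) := by nlinarith only [d1]
  have i2 : (y t - y r) * (y r - y b) < (x r - x t) * (x r - x b) := by nlinarith only [d2]
  have i3 : (x t - x l) * (x r - x t) < (y t - y l) * (y t - y r) := by nlinarith only [d3]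
  have i4 : (y l - y b) * (y t - y l) < (x b - x l) * (x t - x l) := by nlinarith only [d4]
  have j1 := mul_lt_mul'' i1 i3 (mul_pos a1 a2).le (mul_pos a3 a4).le
  have j2 := mul_lt_mul'' i2 i4 (mul_pos b4 b2).le (mul_pos b1 b3).le
  nlinarith only [j1, j2]

/-- the box inequality -/
theorem box_ineq [Fintype ι] (κ : ℕ) (x y : ι → ℝ) (hx : Function.Injective x)
    (hy : Function.Injective y) :
    (Fintype.card ι - κ).choose 3 ≤
      ∑ v, ((#(Q1 x y v) - κ).choose 2 + #(NB κ x y v)) +
      ∑ v, ((#(Q1 y (-x) v) - κ).choose 2 + #(NB κ y (-x) v)) +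
      ∑ v, ((#(Q1 (-x) (-y) v) - κ).choose 2 + #(NB κ (-x) (-y) v)) +
      ∑ v, ((#(Q1 (-y) x v) - κ).choose 2 + #(NB κ (-y) x v)) := by
  rcases isEmpty_or_nonempty ι with hE | hN
  · have : Fintype.card ι = 0 := Fintype.card_eq_zero
    rw [this, Nat.zero_sub]
    exact Nat.zero_le _
  have hnx : Function.Injective (-x) := fun a b h => hx (neg_injective h)
  have hny : Function.Injective (-y) := fun a b h => hy (neg_injective h)
  have key := box_sum κ x y hx hy (fun l b r t =>
    eqi r b + eqi t r + eqi l t + eqi b l + nbq x y l b r + nbq y (-x) b r t +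
      nbq (-x) (-y) r t l + nbq (-y) x t l b - 1)
    (fun R hR => by
      have := quad x y hx hy R hR
      linarith)
  have s1 := sum_eqi κ x y hx hy
  have s2 := sum_eqi κ y (-x) hy hnx
  have s3 := sum_eqi κ (-x) (-y) hnx hny
  have s4 := sum_eqi κ (-y) x hny hx
  have t1 := sum_nbq κ x y hx hy
  have t2 := sum_nbq κ y (-x) hy hnx
  have t3 := sum_nbq κ (-x) (-y) hnx hny
  have t4 := sum_nbq κ (-y) x hny hx
  simp only [neg_neg] at s3 s4 t3 t4
  have hall := lam_all (ι := ι) κ
  have hsplit : ∑ R : Finset ι with R.Nonempty, om κ (#R) =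
      (((Fintype.card ι - κ).choose 3 : ℕ) : ℤ) := by
    rw [← hall, ← Finset.sum_filter_add_sum_filter_not Finset.univ
      (fun R : Finset ι => R.Nonempty)]
    have : ∑ R : Finset ι with ¬ R.Nonempty, om κ (#R) = 0 := by
      apply Finset.sum_eq_zero
      intro R hR
      have h0 : ¬ R.Nonempty := (Finset.mem_filter.mp hR).2
      rw [Finset.not_nonempty_iff_eq_empty] at h0
      rw [h0, Finset.card_empty]
      exact om_zero κ
    rw [this, add_zero]
  simp only [mul_sub, mul_add, mul_one, Finset.sum_add_distrib, Finset.sum_sub_distrib] at key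
  rw [s1, s2, s3, s4, t1, t2, t3, t4, hsplit] at key
  zify
  simp only [Finset.sum_add_distrib]
  linarith

end Pool.Agent.AK
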