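import Pool.Agent.AK.Rot

set_option autoImplicit false

/-!
# Counting the three kinds of corners
-/

namespace Pool.Agent.AK

open Finset Classical

variable {ι : Type*} [Fintype ι]

omit [Fintype ι] in
theorem cr_swap (x y : ι → ℝ) (v p q : ι) : cr x y v q p = - cr x y v p q := by
  simp only [cr]; ring

omit [Fintype ι] in
theorem dt_swap (x y : ι → ℝ) (v p q : ι) : dt x y v q p = dt x y v p q := by
  simp only [dt]; ring

omit [Fintype ι] in
theorem cr_self1 (x y : ι → ℝ) (v q : ι) : cr x y v v q = 0 := by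
  simp [cr]

omit [Fintype ι] in
theorem cr_self2 (x y : ι → ℝ) (v p : ι) : cr x y v p v = 0 := by
  simp [cr]

omit [Fintype ι] in
theorem cr_self3 (x y : ι → ℝ) (v p : ι) : cr x y v p p = 0 := by
  simp [cr]; ring

omit [Fintype ι] in
theorem distinct_of_cr {x y : ι → ℝ} {v p q : ι} (h : cr x y v p q ≠ 0) :
    v ≠ p ∧ p ≠ q ∧ v ≠ q := by
  refine ⟨?_, ?_, ?_⟩
  · rintro rfl; exact h (cr_self1 x y _ _)
  · rintro rfl; exact h (cr_self3 x y _ _)
  · rintro rfl; exact h (cr_self2 x y _ _)

theorem al_self (x y : ι → ℝ) (v : ι) : al x y v v = 0 := by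
  unfold al
  rw [card_eq_zero, filter_eq_empty_iff]
  intro q _ h
  rw [cr_self1] at h
  exact lt_irrefl _ h.1

/-- the ordered triples (v, p, q) with `q` on the left of the ray `v p` -/
noncomputable def TR (x y : ι → ℝ) : Finset (ι × ι × ι) := {t | 0 < cr x y t.1 t.2.1 t.2.2}

/-- the acute ones -/
noncomputable def TA (x y : ι → ℝ) : Finset (ι × ι × ι) :=
  {t | 0 < cr x y t.1 t.2.1 t.2.2 ∧ 0 < dt x y t.1 t.2.1 t.2.2}

/-- the obtuse ones -/
noncomputable def TO (x y : ι → ℝ) : Finset (ι × ι × ι) :=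
  {t | 0 < cr x y t.1 t.2.1 t.2.2 ∧ dt x y t.1 t.2.1 t.2.2 < 0}

/-- the right angles -/
noncomputable def TZ (x y : ι → ℝ) : Finset (ι × ι × ι) :=
  {t | 0 < cr x y t.1 t.2.1 t.2.2 ∧ dt x y t.1 t.2.1 t.2.2 = 0}

theorem card_TA (x y : ι → ℝ) : #(TA x y) = ∑ v, ∑ p, al x y v p := by
  unfold TA al
  simp only [card_filter]
  rw [Fintype.sum_prod_type]
  refine sum_congr rfl fun v _ => ?_
  rw [Fintype.sum_prod_type]

theorem card_TR (x y : ι → ℝ) : #(TR x y) = #(TA x y) + #(TO x y) + #(TZ x y) := by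
  unfold TR TA TO TZ
  simp only [card_filter]
  rw [← sum_add_distrib, ← sum_add_distrib]
  refine sum_congr rfl fun t _ => ?_
  rcases lt_trichotomy (dt x y t.1 t.2.1 t.2.2) 0 with h | h | h
  · simp [h, h.ne, not_lt.2 h.le]
  · simp [h]
  · simp [h, h.ne', not_lt.2 h.le]

/-- the ordered triples of distinct points -/
noncomputable def TD (ι : Type*) [Fintype ι] : Finset (ι × ι × ι) :=
  {t | t.1 ≠ t.2.1 ∧ t.2.1 ≠ t.2.2 ∧ t.1 ≠ t.2.2}

theorem card_TD : (#(TD ι) : ℤ) =
    (Fintype.card ι : ℤ) * ((Fintype.card ι : ℤ) - 1) * ((Fintype.card ι : ℤ) - 2) := by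
  have h1 : #(TD ι) = ∑ v : ι, ∑ p ∈ univ.erase v, #((univ.erase v).erase p) := by
    unfold TD
    simp only [card_filter]
    rw [Fintype.sum_prod_type]
    refine sum_congr rfl fun v _ => ?_
    rw [Fintype.sum_prod_type, ← add_sum_erase univ _ (mem_univ v)]
    simp only [ne_eq, not_true_eq_false, false_and, if_false, sum_const_zero, zero_add]
    refine sum_congr rfl fun p hp => ?_
    rw [card_eq_sum_ones, ← sum_filter]
    refine sum_congr ?_ fun _ _ => rfl
    ext q
    have hp' := ne_of_mem_erase hp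
    simp only [mem_filter, mem_univ, true_and, mem_erase, ne_eq]
    constructor
    · rintro ⟨-, h2, h3⟩; exact ⟨fun h => h2 h.symm, fun h => h3 h.symm, trivial⟩
    · rintro ⟨h2, h3, -⟩; exact ⟨fun h => hp' h.symm, fun h => h2 h.symm, fun h => h3 h.symm⟩
  rw [h1]
  push_cast
  have h2 : ∀ v : ι, ∀ p ∈ univ.erase v, ((#((univ.erase v).erase p) : ℕ) : ℤ) =
      (Fintype.card ι : ℤ) - 2 := by
    intro v p hp
    have h3 : 1 ≤ #(univ.erase v) := card_pos.2 ⟨p, hp⟩
    have h4 : 1 ≤ Fintype.card ι := Fintype.card_pos_iff.2 ⟨v⟩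
    rw [card_erase_of_mem hp, Nat.cast_sub h3, card_erase_of_mem (mem_univ v), card_univ,
      Nat.cast_sub h4]
    push_cast
    ring
  have h5 : ∀ v : ι, ∑ p ∈ univ.erase v, ((#((univ.erase v).erase p) : ℕ) : ℤ) =
      ((Fintype.card ι : ℤ) - 1) * ((Fintype.card ι : ℤ) - 2) := by
    intro v
    have h4 : 1 ≤ Fintype.card ι := Fintype.card_pos_iff.2 ⟨v⟩
    rw [sum_congr rfl (h2 v), sum_const, card_erase_of_mem (mem_univ v), card_univ, nsmul_eq_mul,
      Nat.cast_sub h4]
    push_cast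
    ring
  rw [sum_congr rfl fun v _ => h5 v, sum_const, card_univ, nsmul_eq_mul]
  ring

theorem two_card_TR (x y : ι → ℝ)
    (hg : ∀ v p q : ι, v ≠ p → p ≠ q → v ≠ q → cr x y v p q ≠ 0) :
    2 * #(TR x y) = #(TD ι) := by
  have h1 : TD ι = TR x y ∪ (TR x y).image (fun t => (t.1, t.2.2, t.2.1)) := by
    ext ⟨v, p, q⟩
    simp only [TD, TR, mem_union, mem_filter, mem_univ, true_and, mem_image, Prod.mk.injEq,
      Prod.exists]
    constructor
    · rintro ⟨h1, h2, h3⟩
      rcases lt_or_gt_of_ne (hg v p q h1 h2 h3) with h | h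
      · right
        refine ⟨v, q, p, ?_, rfl, rfl, rfl⟩
        rw [cr_swap]
        linarith
      · left
        exact h
    · rintro (h | ⟨a, b, c, h, rfl, rfl, rfl⟩)
      · exact distinct_of_cr h.ne'
      · obtain ⟨h1, h2, h3⟩ := distinct_of_cr h.ne'
        exact ⟨h3, h2.symm, h1⟩
  rw [h1, card_union_of_disjoint, card_image_of_injective]
  · ring
  · rintro ⟨a, b, c⟩ ⟨a', b', c'⟩ h
    simp only [Prod.mk.injEq] at h
    obtain ⟨rfl, rfl, rfl⟩ := h
    rfl
  · rw [disjoint_left]
    rintro ⟨v, p, q⟩ h2 h3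
    simp only [TR, mem_filter, mem_univ, true_and, mem_image, Prod.mk.injEq, Prod.exists] at h2 h3
    obtain ⟨a, b, c, h, rfl, rfl, rfl⟩ := h3
    rw [cr_swap] at h2
    linarith

theorem card_TZ_le (x y : ι → ℝ)
    (hg : ∀ v p q : ι, v ≠ p → p ≠ q → v ≠ q → cr x y v p q ≠ 0) :
    #(TZ x y) ≤ Fintype.card ι * (Fintype.card ι - 1) := by
  have h1 : #(TZ x y) ≤ #((univ : Finset (ι × ι)).filter (fun t => t.1 ≠ t.2)) := by
    refine card_le_card_of_injOn (fun t => (t.1, t.2.1)) ?_ ?_
    · rintro ⟨v, p, q⟩ h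
      simp only [TZ, coe_filter, mem_univ, true_and, Set.mem_setOf_eq] at h ⊢
      exact (distinct_of_cr h.1.ne').1
    · rintro ⟨v, p, q⟩ h ⟨v', p', q'⟩ h' e
      simp only [TZ, coe_filter, mem_univ, true_and, Set.mem_setOf_eq, Prod.mk.injEq] at h h' e
      obtain ⟨rfl, rfl⟩ := e
      by_contra h2
      have h3 : q ≠ q' := fun h4 => h2 (by rw [h4])
      obtain ⟨h4, h5, h6⟩ := distinct_of_cr h.1.ne'
      obtain ⟨h7, h8, h9⟩ := distinct_of_cr h'.1.ne'
      apply hg v q q' h6 h3 h9
      have e1 := h.2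
      have e2 := h'.2
      have e3 := h.1
      simp only [dt, cr] at e1 e2 e3 ⊢
      set a := x p - x v
      set b := y p - y v
      set c := x q - x v
      set d := y q - y v
      set c' := x q' - x v
      set d' := y q' - y v
      have e4 : (a ^ 2 + b ^ 2) * (c * d' - d * c') = 0 := by
        have : (a ^ 2 + b ^ 2) * (c * d' - d * c') =
          (a * c + b * d) * (a * d' - b * c') - (a * c' + b * d') * (a * d - b * c) := by ring
        rw [this, e1, e2]
        ring
      rcases mul_eq_zero.1 e4 with h10 | h10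
      · exfalso
        have ha : a = 0 := by nlinarith [sq_nonneg a, sq_nonneg b]
        have hb : b = 0 := by nlinarith [sq_nonneg a, sq_nonneg b]
        rw [ha, hb] at e3
        simp at e3
      · exact h10
  refine h1.trans ?_
  have h2 : #((univ : Finset (ι × ι)).filter (fun t => t.1 ≠ t.2)) =
      ∑ v : ι, #(univ.erase v) := by
    simp only [card_filter]
    rw [Fintype.sum_prod_type]
    refine sum_congr rfl fun v _ => ?_
    rw [card_eq_sum_ones, ← sum_filter]
    refine sum_congr ?_ fun _ _ => rfl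
    ext q
    simp only [mem_filter, mem_univ, true_and, mem_erase, ne_eq, and_true]
    tauto
  rw [h2]
  simp only [card_erase_of_mem (mem_univ _), card_univ, sum_const, smul_eq_mul]
  exact le_rfl

/-- the bracket at `v` -/
noncomputable def br (κ : ℕ) (x y : ι → ℝ) (v : ι) : ℕ := ∑ p ∈ univ.erase v, (κ - al x y v p)

/-- the acute corners, the level `κ` and the brackets -/
theorem acute_le (κ : ℕ) (x y : ι → ℝ) (hxy : ∀ p q, x p = x q → y p = y q → p = q)
    (hg : ∀ v p q : ι, v ≠ p → p ≠ q → v ≠ q → cr x y v p q ≠ 0) :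
    (#(TA x y) : ℤ) + ∑ v, (br κ x y v : ℤ) ≤
      3 * (((Fintype.card ι - κ).choose 3 : ℕ) : ℤ) +
        (Fintype.card ι : ℤ) * ((Fintype.card ι : ℤ) - 1) * κ := by
  unfold br
  push_cast
  have h1 := thmA' κ x y hxy hg
  have h2 : (#(TA x y) : ℤ) + ∑ v, ∑ p ∈ univ.erase v, ((κ - al x y v p : ℕ) : ℤ) =
      ∑ v, ∑ p, ((al x y v p - κ : ℕ) : ℤ) +
        (Fintype.card ι : ℤ) * ((Fintype.card ι : ℤ) - 1) * κ := by
    have h3 : ∀ v : ι, ∑ p, (al x y v p : ℤ) + ∑ p ∈ univ.erase v, ((κ - al x y v p : ℕ) : ℤ) =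
        ∑ p, ((al x y v p - κ : ℕ) : ℤ) + ((Fintype.card ι : ℤ) - 1) * κ := by
      intro v
      have h4 : 1 ≤ Fintype.card ι := Fintype.card_pos_iff.2 ⟨v⟩
      have h5 : ((Fintype.card ι : ℤ) - 1) * κ = ∑ p ∈ univ.erase v, (κ : ℤ) := by
        rw [sum_const, card_erase_of_mem (mem_univ v), card_univ, nsmul_eq_mul, Nat.cast_sub h4]
        push_cast
        ring
      rw [h5, ← add_sum_erase univ (fun p => (al x y v p : ℤ)) (mem_univ v),
        ← add_sum_erase univ (fun p => ((al x y v p - κ : ℕ) : ℤ)) (mem_univ v), al_self,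
        add_assoc, add_assoc, ← sum_add_distrib, ← sum_add_distrib]
      congr 1
      · simp
      · refine sum_congr rfl fun p _ => ?_
        omega
    rw [card_TA]
    push_cast
    rw [← sum_add_distrib, sum_congr rfl fun v _ => h3 v, sum_add_distrib]
    congr 1
    rw [sum_const, card_univ, nsmul_eq_mul]
    ring
  rw [h2]
  have h6 : (∑ v, ∑ p, ((al x y v p - κ : ℕ) : ℤ)) ≤
      3 * (((Fintype.card ι - κ).choose 3 : ℕ) : ℤ) := by
    exact_mod_cast h1
  linarith

/-- a point such that all others are in an open half plane -/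
theorem bracket (κ : ℕ) (x y : ι → ℝ) (hκ : κ + 1 ≤ Fintype.card ι)
    (hg : ∀ v p q : ι, v ≠ p → p ≠ q → v ≠ q → cr x y v p q ≠ 0) (v : ι) (a b : ℝ)
    (hv : ∀ q, q ≠ v → 0 < a * (x q - x v) + b * (y q - y v)) :
    (κ + 1).choose 2 ≤ br κ x y v := by
  unfold br
  have key : ∀ p q : ι, p ≠ v → q ≠ v →
      (((a * (y p - y v) - b * (x p - x v)) / (a * (x p - x v) + b * (y p - y v)) <
        (a * (y q - y v) - b * (x q - x v)) / (a * (x q - x v) + b * (y q - y v))) ↔
        0 < cr x y v p q) := by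
    intro p q hp hq
    rw [div_lt_div_iff₀ (hv p hp) (hv q hq)]
    have h1 : 0 < a ^ 2 + b ^ 2 := by
      have h2 := hv p hp
      by_contra h3
      have ha : a = 0 := by nlinarith [sq_nonneg a, sq_nonneg b]
      have hb : b = 0 := by nlinarith [sq_nonneg a, sq_nonneg b]
      rw [ha, hb] at h2
      simp at h2
    have h4 : (a * (y q - y v) - b * (x q - x v)) * (a * (x p - x v) + b * (y p - y v)) -
        (a * (y p - y v) - b * (x p - x v)) * (a * (x q - x v) + b * (y q - y v)) =
        (a ^ 2 + b ^ 2) * cr x y v p q := by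
      simp only [cr]; ring
    constructor
    · intro h5
      have h6 : 0 < (a ^ 2 + b ^ 2) * cr x y v p q := by linarith
      exact (mul_pos_iff_of_pos_left h1).1 h6
    · intro h5
      have h6 : 0 < (a ^ 2 + b ^ 2) * cr x y v p q := mul_pos h1 h5
      linarith
  set f : ι → ℝ := fun p => (a * (y p - y v) - b * (x p - x v)) /
    (a * (x p - x v) + b * (y p - y v)) with hf
  have hinj : Set.InjOn f (univ.erase v : Finset ι) := by
    intro p hp q hq h
    by_contra hne
    have hp' : p ≠ v := by simpa using hp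
    have hq' : q ≠ v := by simpa using hq
    rcases lt_or_gt_of_ne (hg v p q (Ne.symm hp') hne (Ne.symm hq')) with h1 | h1
    · have h2 : 0 < cr x y v q p := by rw [cr_swap]; linarith
      have h3 := (key q p hq' hp').2 h2
      simp only [hf] at h
      linarith
    · have h3 := (key p q hp' hq').2 h1
      simp only [hf] at h
      linarith
  have h1 := sum_rank (univ.erase v) f hinj (fun i => κ - i)
  have h2 : ∑ i ∈ range (#(univ.erase v)), (κ - i) = (κ + 1).choose 2 := by
    rw [card_erase_of_mem (mem_univ v), card_univ]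
    have h3 : ∀ m κ : ℕ, κ ≤ m → ∑ i ∈ range m, (κ - i) = (κ + 1).choose 2 := by
      intro m
      induction m with
      | zero => intro κ h; interval_cases κ; simp
      | succ m ih =>
        intro κ h
        rcases κ with _ | κ
        · simp
        · rw [sum_range_succ', Nat.choose_succ_succ' (κ + 1) 1]
          have h4 : ∀ i ∈ range m, κ + 1 - (i + 1) = κ - i := fun i _ => by omega
          rw [sum_congr rfl h4, ih κ (by omega)]
          simp
          ring
    exact h3 _ _ (by omega)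
  rw [← h2, ← h1]
  refine sum_le_sum fun p hp => ?_
  have hp' : p ≠ v := ne_of_mem_erase hp
  have h3 : al x y v p ≤ #{q ∈ univ.erase v | f p < f q} := by
    unfold al
    refine card_le_card ?_
    intro q hq
    simp only [mem_filter, mem_univ, true_and, mem_erase, ne_eq, and_true] at hq ⊢
    have hq' : q ≠ v := fun h => (distinct_of_cr hq.1.ne').2.2 h.symm
    exact ⟨hq', (key p q hp' hq').2 hq.1⟩
  exact Nat.sub_le_sub_left h3 κ

end Pool.Agent.AK
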