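import Mathlib

set_option autoImplicit false

/-!
# Acute corners with many points inside: definitions

Points are indexed by a finite type `ι`; `x y : ι → ℝ` are their coordinates. The frame can be
turned by ninety degrees: `(x, y)`, `(y, -x)`, `(-x, -y)`, `(-y, x)`.
-/

namespace Pool.Agent.AK

open Finset

variable {ι : Type*}

/-- cross product of `p - v` and `q - v` -/
def cr (x y : ι → ℝ) (v p q : ι) : ℝ := (x p - x v) * (y q - y v) - (y p - y v) * (x q - x v)

/-- inner product of `p - v` and `q - v` -/
def dt (x y : ι → ℝ) (v p q : ι) : ℝ := (x p - x v) * (x q - x v) + (y p - y v) * (y q - y v)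

section

open Classical

variable [Fintype ι]

/-- number of points in the open sector of ninety degrees counterclockwise from the ray `v p` -/
noncomputable def al (x y : ι → ℝ) (v p : ι) : ℕ := #{q | 0 < cr x y v p q ∧ 0 < dt x y v p q}

/-- upper right quadrant at `v` -/
noncomputable def Q0 (x y : ι → ℝ) (v : ι) : Finset ι := {q | x v < x q ∧ y v < y q}

/-- upper left quadrant at `v` -/
noncomputable def Q1 (x y : ι → ℝ) (v : ι) : Finset ι := {q | x q < x v ∧ y v < y q}

/-- the points above `v` -/
noncomputable def Up (y : ι → ℝ) (v : ι) : Finset ι := {q | y v < y q}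

/-- pairs (right point, left point) above `v` with a non-acute angle at `v` and at least `κ` points
above `v` between them in the order of the first coordinate -/
noncomputable def NB (κ : ℕ) (x y : ι → ℝ) (v : ι) : Finset (ι × ι) :=
  {rl | rl.1 ∈ Q0 x y v ∧ rl.2 ∈ Q1 x y v ∧ dt x y v rl.1 rl.2 ≤ 0 ∧
    κ ≤ #{q | y v < y q ∧ x rl.2 < x q ∧ x q < x rl.1}}

end

/-- difference operator -/
def Df (g : ℕ → ℤ) : ℕ → ℤ := fun k => g (k + 1) - g k

/-- `C(k - κ, 3)` -/
def gK (κ : ℕ) : ℕ → ℤ := fun k => (((k - κ).choose 3 : ℕ) : ℤ)

/-- the weight of a set with `m` elements -/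
def om (κ m : ℕ) : ℤ := (Df^[m] (gK κ)) 0

section

open Classical

/-- the element of `R` with the smallest value of `f` (some element if `R` is empty) -/
noncomputable def mn [Nonempty ι] (f : ι → ℝ) (R : Finset ι) : ι :=
  if h : R.Nonempty then (R.exists_min_image f h).choose else Classical.arbitrary ι

/-- indicator: `v` is below `l` and `r`, `l` left and `r` right of `v`, and the angle is not acute -/
noncomputable def nbq (x y : ι → ℝ) (l v r : ι) : ℤ :=
  if x l < x v ∧ x v < x r ∧ y v < y l ∧ y v < y r ∧ dt x y v r l ≤ 0 then 1 else 0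

/-- indicator of equality -/
noncomputable def eqi (p q : ι) : ℤ := if p = q then 1 else 0

end

end Pool.Agent.AK
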