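import Pool.Agent.AK.ExactUp

set_option autoImplicit false

/-!
# Points in convex position: the exact minimum of the number of non-acute angles
-/

namespace Pool.Agent.AK

open Finset Pool.Agent.MP_0af329_co Pool.Agent.MP_0af329_co.Cvx

/-- the exact minimum -/
theorem minCntC_eq (n : ℕ) : minCntC n (Set.Ici (Real.pi / 2)) = 2 * T4 n :=
  minCntC_eq_of n (exists_convex_exact n)

end Pool.Agent.AK
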