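import Pool.Agent.AK.Geo
import Pool.Agent.MP_0af329_co.QU
import Pool.Agent.MP_0af329_co.CvxFin

set_option autoImplicit false

/-!
# Points in convex position: the exact lower bound (row AK-ExactLo)
-/

namespace Pool.Agent.AK

open Finset Classical Pool.Agent.MP_0af329_co Pool.Agent.MP_0af329_co.Cvx

/-- Turán's numbers for (4, 3): `m(m-1)(2m-1)`, `m²(2m-1)`, `m²(2m+1)` for `n = 3m, 3m+1, 3m+2` -/
def T4 (n : ℕ) : ℕ :=
  if n % 3 = 0 then (n / 3) * (n / 3 - 1) * (2 * (n / 3) - 1)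
  else if n % 3 = 1 then (n / 3) ^ 2 * (2 * (n / 3) - 1)
  else (n / 3) ^ 2 * (2 * (n / 3) + 1)

private theorem choose2_int (n : ℕ) : 2 * ((n.choose 2 : ℕ) : ℤ) = (n : ℤ) * ((n : ℤ) - 1) := by
  induction n with
  | zero => simp
  | succ n ih =>
    rw [Nat.choose_succ_succ, Nat.choose_one_right]
    push_cast
    push_cast at ih
    linarith

private theorem choose3_int (n : ℕ) :
    6 * ((n.choose 3 : ℕ) : ℤ) = (n : ℤ) * ((n : ℤ) - 1) * ((n : ℤ) - 2) := by
  induction n with
  | zero => simp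
  | succ n ih =>
    have h := choose2_int n
    rw [Nat.choose_succ_succ]
    push_cast
    push_cast at ih h
    linarith

/-- the lower bound (take `κ = n / 3` in `cnt_convex`) -/
theorem le_cnt_convex (S : Finset Pt) (hS : GenPos S) (hc : ConvexPos S) :
    2 * T4 S.card ≤ cnt S (Set.Ici (Real.pi / 2)) := by
  rcases Nat.eq_zero_or_pos S.card with h0 | h0
  · rw [h0]; simp [T4]
  · have h := cnt_convex S hS hc (S.card / 3) (by omega)
    set N := S.card with hN
    obtain ⟨m, r, hm, hr⟩ : ∃ m r : ℕ, N = 3 * m + r ∧ r < 3 :=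
      ⟨N / 3, N % 3, by omega, Nat.mod_lt _ (by norm_num)⟩
    have hdiv : N / 3 = m := by omega
    have hmod : N % 3 = r := by omega
    have e2 := choose2_int (m + 1)
    have e3 := choose3_int (N - m)
    have hNm : N - m = 2 * m + r := by omega
    rw [hNm] at e3
    rw [hdiv, hNm] at h
    unfold T4
    rw [hdiv, hmod]
    interval_cases r
    · rw [if_pos rfl]
      rcases Nat.eq_zero_or_pos m with hm0 | hm0
      · omega
      · obtain ⟨k, rfl⟩ : ∃ k, m = k + 1 := ⟨m - 1, by omega⟩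
        have : ((2 * ((k + 1) * (k + 1 - 1) * (2 * (k + 1) - 1)) : ℕ) : ℤ)
            ≤ ((cnt S (Set.Ici (Real.pi / 2)) : ℕ) : ℤ) := by
          rw [show k + 1 - 1 = k by omega, show 2 * (k + 1) - 1 = 2 * k + 1 by omega]
          rw [hm] at h
          push_cast at h e2 e3 ⊢
          nlinarith
        exact_mod_cast this
    · rw [if_neg (by norm_num), if_pos rfl]
      rcases Nat.eq_zero_or_pos m with hm0 | hm0
      · subst hm0; simp
      · obtain ⟨k, rfl⟩ : ∃ k, m = k + 1 := ⟨m - 1, by omega⟩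
        have : ((2 * ((k + 1) ^ 2 * (2 * (k + 1) - 1)) : ℕ) : ℤ)
            ≤ ((cnt S (Set.Ici (Real.pi / 2)) : ℕ) : ℤ) := by
          rw [show 2 * (k + 1) - 1 = 2 * k + 1 by omega]
          rw [hm] at h
          push_cast at h e2 e3 ⊢
          nlinarith
        exact_mod_cast this
    · rw [if_neg (by norm_num), if_neg (by norm_num)]
      have : ((2 * (m ^ 2 * (2 * m + 1)) : ℕ) : ℤ)
          ≤ ((cnt S (Set.Ici (Real.pi / 2)) : ℕ) : ℤ) := by
        rw [hm] at h
        push_cast at h e2 e3 ⊢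
        nlinarith
      exact_mod_cast this

/-- the exact minimum, from the upper bound -/
theorem minCntC_eq_of (n : ℕ) (hup : ∃ S : Finset Pt, S.card = n ∧ GenPos S ∧ ConvexPos S ∧
    cnt S (Set.Ici (Real.pi / 2)) ≤ 2 * T4 n) :
    minCntC n (Set.Ici (Real.pi / 2)) = 2 * T4 n := by
  obtain ⟨S, h1, h2, h3, h4⟩ := hup
  apply le_antisymm
  · have h5 : minCntC n (Set.Ici (Real.pi / 2)) ≤ cnt S (Set.Ici (Real.pi / 2)) :=
      Nat.sInf_le ⟨S, h1, h2, h3, rfl⟩
    exact h5.trans h4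
  · have hne : {m | ∃ S : Finset Pt, S.card = n ∧ GenPos S ∧ ConvexPos S ∧
        cnt S (Set.Ici (Real.pi / 2)) = m}.Nonempty := ⟨_, S, h1, h2, h3, rfl⟩
    obtain ⟨S', k1, k2, k3, k4⟩ := Nat.sInf_mem hne
    have h6 := le_cnt_convex S' k2 k3
    rw [k1] at h6
    unfold minCntC
    rw [← k4]
    exact h6

end Pool.Agent.AK
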