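import Pool.Agent.AK.ExactLo

set_option autoImplicit false

/-!
# Points in convex position: the exact minimum of the number of non-acute angles, upper bound
-/

namespace Pool.Agent.AK

open Finset Classical Pool.Agent.MP_0af329_co Pool.Agent.MP_0af329_co.Cvx

namespace EU

/-- the points of the class `i` -/
private noncomputable def Wi (M : ℕ) (a : Fin 3 → ℕ) (i : Fin 3) : Finset (Fin 3 × Fin M) :=
  univ.filter fun x => x.1 = i ∧ (x.2 : ℕ) < a i

/-- all points -/
private noncomputable def Wp (M : ℕ) (a : Fin 3 → ℕ) : Finset (Fin 3 × Fin M) :=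
  univ.filter fun x => (x.2 : ℕ) < a x.1

private theorem card_fin_lt (M a : ℕ) (h : a ≤ M) :
    ((univ : Finset (Fin M)).filter fun j : Fin M => (j : ℕ) < a).card = a := by
  have h1 : ((univ : Finset (Fin M)).filter fun j : Fin M => (j : ℕ) < a).map Fin.valEmbedding =
      Finset.range a := by
    ext k
    simp only [mem_map, mem_filter, mem_univ, true_and, Fin.valEmbedding_apply, mem_range]
    constructor
    · rintro ⟨j, hj, rfl⟩
      exact hj
    · intro hk
      exact ⟨⟨k, by omega⟩, hk, rfl⟩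
  rw [← card_map, h1, card_range]

private theorem card_Wi (M : ℕ) (a : Fin 3 → ℕ) (i : Fin 3) (h : a i ≤ M) :
    (Wi M a i).card = a i := by
  have h1 : Wi M a i = ((univ : Finset (Fin M)).filter fun j : Fin M => (j : ℕ) < a i).map
      ⟨fun j => (i, j), fun j k h => (Prod.mk.inj h).2⟩ := by
    ext ⟨x, j⟩
    simp only [Wi, mem_filter, mem_univ, true_and, mem_map, Function.Embedding.coeFn_mk,
      Prod.mk.injEq]
    constructor
    · rintro ⟨rfl, h2⟩
      exact ⟨j, h2, rfl, rfl⟩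
    · rintro ⟨k, h2, rfl, rfl⟩
      exact ⟨rfl, h2⟩
  rw [h1, card_map, card_fin_lt M (a i) h]

private theorem card_Wp (M : ℕ) (a : Fin 3 → ℕ) (h : ∀ i, a i ≤ M) :
    (Wp M a).card = a 0 + a 1 + a 2 := by
  have h1 : Wp M a = (univ : Finset (Fin 3)).biUnion (Wi M a) := by
    ext ⟨x, j⟩
    simp only [Wp, Wi, mem_filter, mem_univ, true_and, mem_biUnion]
    constructor
    · intro h2
      exact ⟨x, rfl, h2⟩
    · rintro ⟨i, rfl, h2⟩
      exact h2
  rw [h1, card_biUnion]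
  · rw [Fin.sum_univ_three, card_Wi _ _ _ (h 0), card_Wi _ _ _ (h 1), card_Wi _ _ _ (h 2)]
  · intro i _ j _ hij
    rw [Function.onFun, disjoint_left]
    rintro x hx hx'
    simp only [Wi, mem_filter, mem_univ, true_and] at hx hx'
    exact hij (hx.1.symm.trans hx'.1)

/-- ordered triples of distinct elements -/
private noncomputable def D3 {X : Type} (A : Finset X) : Finset (X × X × X) :=
  A.biUnion fun x => (A.erase x).offDiag.image fun yz => (x, yz.1, yz.2)

private theorem card_D3 {X : Type} (A : Finset X) :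
    (D3 A).card ≤ A.card * (A.card - 1) * (A.card - 2) := by
  refine card_biUnion_le.trans ?_
  have h1 : ∀ x ∈ A, ((A.erase x).offDiag.image fun yz : X × X => (x, yz.1, yz.2)).card ≤
      (A.card - 1) * (A.card - 2) := by
    intro x hx
    refine card_image_le.trans ?_
    rw [offDiag_card, card_erase_of_mem hx]
    rcases A.card with _ | _ | k
    · simp
    · simp
    · rw [show k + 1 + 1 - 1 = k + 1 by omega, show k + 1 + 1 - 2 = k by omega,
        ← Nat.mul_sub_one, show k + 1 - 1 = k by omega]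
  refine (sum_le_sum h1).trans ?_
  rw [sum_const, smul_eq_mul, mul_assoc]

/-- two elements of `A` and one of `B`, in the three orders -/
private noncomputable def P3 {X : Type} (A B : Finset X) : Finset (X × X × X) :=
  ((A.offDiag ×ˢ B).image fun s => (s.1.1, s.1.2, s.2)) ∪
    (((A.offDiag ×ˢ B).image fun s => (s.1.1, s.2, s.1.2)) ∪
      ((A.offDiag ×ˢ B).image fun s => (s.2, s.1.1, s.1.2)))

private theorem card_P3 {X : Type} (A B : Finset X) :
    (P3 A B).card ≤ 3 * (A.card * (A.card - 1) * B.card) := by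
  have h0 : (A.offDiag ×ˢ B).card = A.card * (A.card - 1) * B.card := by
    rw [card_product, offDiag_card, Nat.mul_sub_one]
  refine (card_union_le _ _).trans ?_
  have h1 := card_union_le ((A.offDiag ×ˢ B).image fun s => (s.1.1, s.2, s.1.2))
    ((A.offDiag ×ˢ B).image fun s => (s.2, s.1.1, s.1.2))
  have h2 : ((A.offDiag ×ˢ B).image fun s : (X × X) × X => (s.1.1, s.1.2, s.2)).card ≤ _ :=
    card_image_le
  have h3 : ((A.offDiag ×ˢ B).image fun s : (X × X) × X => (s.1.1, s.2, s.1.2)).card ≤ _ :=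
    card_image_le
  have h4 : ((A.offDiag ×ˢ B).image fun s : (X × X) × X => (s.2, s.1.1, s.1.2)).card ≤ _ :=
    card_image_le
  rw [h0] at h2 h3 h4
  omega

/-- the bad triples -/
private noncomputable def J (M : ℕ) (a : Fin 3 → ℕ) :
    Finset ((Fin 3 × Fin M) × (Fin 3 × Fin M) × (Fin 3 × Fin M)) :=
  (univ : Finset (Fin 3)).biUnion fun i => D3 (Wi M a i) ∪ P3 (Wi M a i) (Wi M a (i + 2))

private theorem card_J (M : ℕ) (a : Fin 3 → ℕ) (h : ∀ i, a i ≤ M) :
    (J M a).card ≤ ∑ i : Fin 3,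
      (a i * (a i - 1) * (a i - 2) + 3 * (a i * (a i - 1) * a (i + 2))) := by
  refine card_biUnion_le.trans (sum_le_sum fun i _ => ?_)
  refine (card_union_le _ _).trans ?_
  have h1 := card_D3 (Wi M a i)
  have h2 := card_P3 (Wi M a i) (Wi M a (i + 2))
  rw [card_Wi M a _ (h i)] at h1 h2
  rw [card_Wi M a _ (h (i + 2))] at h2
  exact Nat.add_le_add h1 h2

private theorem bad_cases (i j k : Fin 3) (h : ¬ QU.goodc i j k) :
    (i = j ∧ j = k) ∨ (j = i ∧ k = i + 2) ∨ (k = i ∧ j = i + 2) ∨ (j = k ∧ i = j + 2) := by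
  revert i j k
  decide

private theorem mem_J (M : ℕ) (a : Fin 3 → ℕ) (x y z : Fin 3 × Fin M) (hx : x ∈ Wp M a)
    (hy : y ∈ Wp M a) (hz : z ∈ Wp M a) (hxy : x ≠ y) (hyz : y ≠ z) (hxz : x ≠ z)
    (h : ¬ QU.goodc x.1 y.1 z.1) : (x, y, z) ∈ J M a := by
  have hW : ∀ u ∈ Wp M a, u ∈ Wi M a u.1 := by
    intro u hu
    simp only [Wp, Wi, mem_filter, mem_univ, true_and] at hu ⊢
    exact hu
  have hx1 := hW x hx
  have hy1 := hW y hy
  have hz1 := hW z hz
  simp only [J, mem_biUnion, mem_univ, true_and, mem_union]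
  rcases bad_cases _ _ _ h with ⟨h1, h2⟩ | ⟨h1, h2⟩ | ⟨h1, h2⟩ | ⟨h1, h2⟩
  · refine ⟨x.1, Or.inl ?_⟩
    rw [← h2, ← h1] at hz1
    rw [← h1] at hy1
    simp only [D3, mem_biUnion, mem_image, mem_offDiag, mem_erase]
    exact ⟨x, hx1, (y, z), ⟨⟨hxy.symm, hy1⟩, ⟨hxz.symm, hz1⟩, hyz⟩, rfl⟩
  · refine ⟨x.1, Or.inr ?_⟩
    rw [h1] at hy1
    rw [h2] at hz1
    simp only [P3, mem_union, mem_image, mem_product, mem_offDiag]
    exact Or.inl ⟨((x, y), z), ⟨⟨hx1, hy1, hxy⟩, hz1⟩, rfl⟩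
  · refine ⟨x.1, Or.inr ?_⟩
    rw [h1] at hz1
    rw [h2] at hy1
    simp only [P3, mem_union, mem_image, mem_product, mem_offDiag]
    exact Or.inr (Or.inl ⟨((x, z), y), ⟨⟨hx1, hz1, hxz⟩, hy1⟩, rfl⟩)
  · refine ⟨y.1, Or.inr ?_⟩
    rw [← h1] at hz1
    rw [h2] at hx1
    simp only [P3, mem_union, mem_image, mem_product, mem_offDiag]
    exact Or.inr (Or.inr ⟨((y, z), x), ⟨⟨hy1, hz1, hyz⟩, hx1⟩, rfl⟩)

/-- at most one angle of a proper triangle is not acute -/
private theorem at_most_one {S : Finset Pt} (hS : GenPos S) {x y z : Pt} (hx : x ∈ S)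
    (hy : y ∈ S) (hz : z ∈ S) (hxy : x ≠ y) (hyz : y ≠ z) (hxz : x ≠ z) :
    (if EuclideanGeometry.angle x y z ∈ Set.Ici (Real.pi / 2) then (1 : ℝ) else 0) +
    (if EuclideanGeometry.angle y z x ∈ Set.Ici (Real.pi / 2) then (1 : ℝ) else 0) +
    (if EuclideanGeometry.angle z x y ∈ Set.Ici (Real.pi / 2) then (1 : ℝ) else 0) ≤ 1 := by
  have h1 : EuclideanGeometry.angle x y z + EuclideanGeometry.angle y z x +
      EuclideanGeometry.angle z x y = Real.pi :=
    EuclideanGeometry.angle_add_angle_add_angle_eq_pi z hxy.symm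
  have h2 : 0 < EuclideanGeometry.angle x y z :=
    lt_of_le_of_ne (EuclideanGeometry.angle_nonneg x y z) fun h =>
      hS x hx y hy z hz hxy hyz hxz (EuclideanGeometry.collinear_of_angle_eq_zero h.symm)
  have h3 : 0 < EuclideanGeometry.angle y z x :=
    lt_of_le_of_ne (EuclideanGeometry.angle_nonneg y z x) fun h =>
      hS y hy z hz x hx hyz hxz.symm hxy.symm
        (EuclideanGeometry.collinear_of_angle_eq_zero h.symm)
  have h4 : 0 < EuclideanGeometry.angle z x y :=
    lt_of_le_of_ne (EuclideanGeometry.angle_nonneg z x y) fun h =>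
      hS z hz x hx y hy hxz.symm hxy hyz.symm
        (EuclideanGeometry.collinear_of_angle_eq_zero h.symm)
  simp only [Set.mem_Ici]
  split_ifs <;> linarith

private theorem three_cnt_le (M : ℕ) (a : Fin 3 → ℕ) (h : ∀ i, a i ≤ M)
    (p : Fin 3 × Fin M → Pt)
    (hang : ∀ x y z : Fin 3 × Fin M, x ≠ y → y ≠ z → x ≠ z → QU.goodc x.1 y.1 z.1 →
      EuclideanGeometry.angle (p x) (p y) (p z) < Real.pi / 2)
    (hS : GenPos ((Wp M a).image p)) :
    3 * cnt ((Wp M a).image p) (Set.Ici (Real.pi / 2)) ≤ ∑ i : Fin 3,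
      (a i * (a i - 1) * (a i - 2) + 3 * (a i * (a i - 1) * a (i + 2))) := by
  refine le_trans ?_ (card_J M a h)
  set S := (Wp M a).image p with hSd
  let K : Finset (Pt × Pt × Pt) := (J M a).image fun s => (p s.1, p s.2.1, p s.2.2)
  have hK : (K.card : ℝ) ≤ ((J M a).card : ℝ) := by exact_mod_cast card_image_le
  set o : Pt → Pt → Pt → ℝ := fun x y z =>
    if EuclideanGeometry.angle x y z ∈ Set.Ici (Real.pi / 2) then (1 : ℝ) else 0 with ho
  have hcnt : (cnt S (Set.Ici (Real.pi / 2)) : ℝ) = ∑ t ∈ trip S, o t.1 t.2.1 t.2.2 :=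
    cnt_eq_sum S _
  have hr1 : ∑ t ∈ trip S, o t.1 t.2.1 t.2.2 = ∑ t ∈ trip S, o t.2.1 t.2.2 t.1 :=
    sum_trip_rot S o
  have hr2 : ∑ t ∈ trip S, o t.2.1 t.2.2 t.1 = ∑ t ∈ trip S, o t.2.2 t.1 t.2.1 :=
    sum_trip_rot S (fun x y z => o y z x)
  have hsum : ∑ t ∈ trip S, (o t.1 t.2.1 t.2.2 + o t.2.1 t.2.2 t.1 + o t.2.2 t.1 t.2.1) ≤
      ∑ t ∈ trip S, if t ∈ K then (1 : ℝ) else 0 := by
    refine Finset.sum_le_sum fun t ht => ?_
    obtain ⟨u, v, w⟩ := t
    rw [mem_trip] at ht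
    obtain ⟨⟨hu, hv, hw⟩, huv, hvw, huw⟩ := ht
    have hu' := hu
    have hv' := hv
    have hw' := hw
    rw [hSd, mem_image] at hu' hv' hw'
    obtain ⟨x, hx, rfl⟩ := hu'
    obtain ⟨y, hy, rfl⟩ := hv'
    obtain ⟨z, hz, rfl⟩ := hw'
    have hxy : x ≠ y := fun h => huv (by rw [h])
    have hyz : y ≠ z := fun h => hvw (by rw [h])
    have hxz : x ≠ z := fun h => huw (by rw [h])
    by_cases hg : QU.goodc x.1 y.1 z.1
    · have a1 := hang x y z hxy hyz hxz hg
      have a2 := hang y z x hyz hxz.symm hxy.symm (QU.goodc_rot hg)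
      have a3 := hang z x y hxz.symm hxy hyz.symm (QU.goodc_rot (QU.goodc_rot hg))
      have b1 : o (p x) (p y) (p z) = 0 := if_neg (not_le.2 a1)
      have b2 : o (p y) (p z) (p x) = 0 := if_neg (not_le.2 a2)
      have b3 : o (p z) (p x) (p y) = 0 := if_neg (not_le.2 a3)
      change o (p x) (p y) (p z) + o (p y) (p z) (p x) + o (p z) (p x) (p y) ≤ _
      rw [b1, b2, b3]
      split_ifs <;> norm_num
    · have hmem : (p x, p y, p z) ∈ K := by
        simp only [K, Finset.mem_image]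
        exact ⟨(x, y, z), mem_J M a x y z hx hy hz hxy hyz hxz hg, rfl⟩
      rw [if_pos hmem]
      exact at_most_one hS hu hv hw huv hvw huw
  have hcard : ∑ t ∈ trip S, (if t ∈ K then (1 : ℝ) else 0) ≤ (K.card : ℝ) := by
    exact QU.sum_ind_le (trip S) K
  rw [Finset.sum_add_distrib, Finset.sum_add_distrib, ← hr2, ← hr1, ← hcnt] at hsum
  have h9 : (3 : ℝ) * (cnt S (Set.Ici (Real.pi / 2)) : ℝ) ≤ ((J M a).card : ℝ) := by linarith
  exact_mod_cast h9

/-- the arithmetic -/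
private theorem arith (n : ℕ) (a : Fin 3 → ℕ) (h0 : a 0 = (n + 2) / 3) (h1 : a 1 = (n + 1) / 3)
    (h2 : a 2 = n / 3) : ∑ i : Fin 3,
      (a i * (a i - 1) * (a i - 2) + 3 * (a i * (a i - 1) * a (i + 2))) = 6 * T4 n := by
  rw [Fin.sum_univ_three]
  have e0 : (0 : Fin 3) + 2 = 2 := rfl
  have e1 : (1 : Fin 3) + 2 = 0 := rfl
  have e2 : (2 : Fin 3) + 2 = 1 := rfl
  rw [e0, e1, e2]
  obtain ⟨m, hm | hm | hm⟩ : ∃ m, n = 3 * m ∨ n = 3 * m + 1 ∨ n = 3 * m + 2 :=
    ⟨n / 3, by omega⟩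
  · have k0 : a 0 = m := by omega
    have k1 : a 1 = m := by omega
    have k2 : a 2 = m := by omega
    have k3 : n % 3 = 0 := by omega
    have k4 : n / 3 = m := by omega
    rw [T4, if_pos k3, k4, k0, k1, k2]
    rcases m with _ | _ | k
    · simp
    · simp
    · rw [show k + 1 + 1 - 1 = k + 1 by omega, show k + 1 + 1 - 2 = k by omega,
        show 2 * (k + 1 + 1) - 1 = 2 * k + 3 by omega]
      ring
  · have k0 : a 0 = m + 1 := by omega
    have k1 : a 1 = m := by omega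
    have k2 : a 2 = m := by omega
    have k3 : n % 3 = 1 := by omega
    have k4 : n / 3 = m := by omega
    rw [T4, if_neg (by omega), if_pos k3, k4, k0, k1, k2]
    rcases m with _ | _ | k
    · simp
    · simp
    · rw [show k + 1 + 1 - 1 = k + 1 by omega, show k + 1 + 1 - 2 = k by omega,
        show k + 1 + 1 + 1 - 1 = k + 2 by omega, show k + 1 + 1 + 1 - 2 = k + 1 by omega,
        show 2 * (k + 1 + 1) - 1 = 2 * k + 3 by omega]
      ring
  · have k0 : a 0 = m + 1 := by omega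
    have k1 : a 1 = m + 1 := by omega
    have k2 : a 2 = m := by omega
    have k4 : n / 3 = m := by omega
    rw [T4, if_neg (by omega), if_neg (by omega), k4, k0, k1, k2]
    rcases m with _ | _ | k
    · simp
    · simp
    · rw [show k + 1 + 1 - 1 = k + 1 by omega, show k + 1 + 1 - 2 = k by omega,
        show k + 1 + 1 + 1 - 1 = k + 2 by omega, show k + 1 + 1 + 1 - 2 = k + 1 by omega]
      ring

end EU

/-- the three clusters of `QU.conf`, with points removed if `n` is not divisible by three -/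
theorem exists_convex_exact (n : ℕ) : ∃ S : Finset Pt, S.card = n ∧ GenPos S ∧ ConvexPos S ∧
    cnt S (Set.Ici (Real.pi / 2)) ≤ 2 * T4 n := by
  set m : ℕ := (n + 2) / 3 + 1 with hm
  have hM : (1 : ℝ) ≤ (m : ℝ) := by
    have : 1 ≤ m := by omega
    exact_mod_cast this
  have hM0 : (0 : ℝ) < (m : ℝ) := by linarith
  set e : ℝ := 1 / (1000 * (m : ℝ) ^ 6) with hedef
  have he : 0 < e := by positivity
  have hMe : (m : ℝ) ^ 6 * e ≤ 1 / 1000 := by
    rw [hedef]
    apply le_of_eq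
    field_simp
  have hinj : Function.Injective (QU.conf m e) := by
    intro x y h
    by_contra hne
    exact QU.conf_inj m e he hMe x y hne h
  let a : Fin 3 → ℕ := ![(n + 2) / 3, (n + 1) / 3, n / 3]
  have ha0 : a 0 = (n + 2) / 3 := rfl
  have ha1 : a 1 = (n + 1) / 3 := rfl
  have ha2 : a 2 = n / 3 := rfl
  have ha : ∀ i, a i ≤ m := by
    have hfin : ∀ j : Fin 3, j = 0 ∨ j = 1 ∨ j = 2 := by decide
    intro i
    rcases hfin i with rfl | rfl | rfl
    · rw [ha0]; omega
    · rw [ha1]; omega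
    · rw [ha2]; omega
  have hcp : ConvexPos ((EU.Wp m a).image (QU.conf m e)) := by
    intro x hx
    obtain ⟨x, hx1, rfl⟩ := mem_image.1 hx
    obtain ⟨α, β, h⟩ := QU.sep_conf m e he hMe x
    refine QU.not_mem_hull α β _ _ ?_
    rintro y ⟨hy, hyx⟩
    obtain ⟨y, hy1, rfl⟩ := mem_image.1 (Finset.mem_coe.1 hy)
    exact h y fun h' => hyx (by rw [h']; rfl)
  have hgp : GenPos ((EU.Wp m a).image (QU.conf m e)) := QU.genPos_of_convexPos hcp
  refine ⟨(EU.Wp m a).image (QU.conf m e), ?_, hgp, hcp, ?_⟩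
  · rw [card_image_of_injective _ hinj, EU.card_Wp m a ha, ha0, ha1, ha2]
    omega
  · have h1 := EU.three_cnt_le m a ha (QU.conf m e)
      (fun x y z hxy hyz hxz h => QU.angle_conf m e he hMe x y z hxy hyz hxz h) hgp
    rw [EU.arith n a ha0 ha1 ha2] at h1
    omega

end Pool.Agent.AK
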