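import Pool.Agent.AK.Count
import Pool.Agent.MP_0af329_co.Lim
import Pool.Agent.MP_0af329_co.Cvx4

set_option autoImplicit false

/-!
# From angles in the plane to coordinates
-/

namespace Pool.Agent.AK

open Finset Classical Pool.Agent.MP_0af329_co Pool.Agent.MP_0af329_co.Cvx

/-- first coordinate -/
noncomputable def X (S : Finset Pt) : S → ℝ := fun p => p.1 0

/-- second coordinate -/
noncomputable def Y (S : Finset Pt) : S → ℝ := fun p => p.1 1

theorem xy_inj (S : Finset Pt) (p q : S) (h0 : X S p = X S q) (h1 : Y S p = Y S q) : p = q := by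
  apply Subtype.ext
  ext i
  fin_cases i
  · exact h0
  · exact h1

theorem dt_eq_inner (S : Finset Pt) (v p q : S) :
    dt (X S) (Y S) v p q = inner ℝ (p.1 - v.1) (q.1 - v.1) := by
  simp [dt, X, Y, PiLp.inner_apply, Fin.sum_univ_two]
  ring

theorem gen (S : Finset Pt) (hS : GenPos S) (v p q : S) (h1 : v ≠ p) (h2 : p ≠ q) (h3 : v ≠ q) :
    cr (X S) (Y S) v p q ≠ 0 := by
  intro h
  refine hS v.1 v.2 p.1 p.2 q.1 q.2 (fun e => h1 (Subtype.ext e)) (fun e => h2 (Subtype.ext e))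
    (fun e => h3 (Subtype.ext e)) ?_
  rw [collinear_iff_of_mem (p₀ := v.1) (by simp)]
  refine ⟨p.1 - v.1, ?_⟩
  have hpv : p.1 - v.1 ≠ 0 := sub_ne_zero.2 (fun e => h1 (Subtype.ext e.symm))
  intro z hz
  simp only [Set.mem_insert_iff, Set.mem_singleton_iff] at hz
  rcases hz with rfl | rfl | rfl
  · exact ⟨0, by simp⟩
  · exact ⟨1, by simp⟩
  · simp only [cr, X, Y] at h
    by_cases h4 : p.1 0 - v.1 0 = 0
    · have h5 : p.1 1 - v.1 1 ≠ 0 := by
        intro h5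
        apply hpv
        ext i
        fin_cases i
        · simpa using h4
        · simpa using h5
      refine ⟨(q.1 1 - v.1 1) / (p.1 1 - v.1 1), ?_⟩
      ext i
      fin_cases i
      · have h6 : q.1 0 - v.1 0 = 0 := by
          rw [h4, zero_mul, zero_sub, neg_eq_zero] at h
          exact (mul_eq_zero.1 h).resolve_left h5
        simp only [Fin.zero_eta, vadd_eq_add, PiLp.add_apply, PiLp.smul_apply, PiLp.sub_apply,
          smul_eq_mul]
        rw [h4]
        linarith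
      · simp only [Fin.mk_one, vadd_eq_add, PiLp.add_apply, PiLp.smul_apply, PiLp.sub_apply,
          smul_eq_mul]
        field_simp
        ring
    · refine ⟨(q.1 0 - v.1 0) / (p.1 0 - v.1 0), ?_⟩
      ext i
      fin_cases i
      · simp only [Fin.zero_eta, vadd_eq_add, PiLp.add_apply, PiLp.smul_apply, PiLp.sub_apply,
          smul_eq_mul]
        field_simp
        ring
      · simp only [Fin.mk_one, vadd_eq_add, PiLp.add_apply, PiLp.smul_apply, PiLp.sub_apply,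
          smul_eq_mul]
        field_simp
        linarith

theorem angle_gt_iff (S : Finset Pt) (v p q : S) (h1 : p ≠ v) (h2 : q ≠ v) :
    Real.pi / 2 < EuclideanGeometry.angle p.1 v.1 q.1 ↔ dt (X S) (Y S) v p q < 0 := by
  have hp : 0 < ‖p.1 - v.1‖ := norm_pos_iff.2 (sub_ne_zero.2 (fun e => h1 (Subtype.ext e)))
  have hq : 0 < ‖q.1 - v.1‖ := norm_pos_iff.2 (sub_ne_zero.2 (fun e => h2 (Subtype.ext e)))
  rw [dt_eq_inner, ← not_le]
  change ¬ InnerProductGeometry.angle (p.1 - v.1) (q.1 - v.1) ≤ Real.pi / 2 ↔ _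
  rw [InnerProductGeometry.angle, Real.arccos_le_pi_div_two, not_le,
    div_lt_iff₀ (mul_pos hp hq), zero_mul]

theorem angle_ge_iff (S : Finset Pt) (v p q : S) (h1 : p ≠ v) (h2 : q ≠ v) :
    Real.pi / 2 ≤ EuclideanGeometry.angle p.1 v.1 q.1 ↔ dt (X S) (Y S) v p q ≤ 0 := by
  have hp : 0 < ‖p.1 - v.1‖ := norm_pos_iff.2 (sub_ne_zero.2 (fun e => h1 (Subtype.ext e)))
  have hq : 0 < ‖q.1 - v.1‖ := norm_pos_iff.2 (sub_ne_zero.2 (fun e => h2 (Subtype.ext e)))
  rw [dt_eq_inner, ← not_lt]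
  change ¬ InnerProductGeometry.angle (p.1 - v.1) (q.1 - v.1) < Real.pi / 2 ↔ _
  rw [InnerProductGeometry.angle, Real.arccos_lt_pi_div_two, not_lt,
    div_le_iff₀ (mul_pos hp hq), zero_mul]

/-- `cnt` as a number of triples of the subtype -/
theorem cnt_eq (S : Finset Pt) (A : Set ℝ) (P : S → S → S → Prop)
    (hP : ∀ v p q : S, v ≠ p → p ≠ q → v ≠ q →
      (EuclideanGeometry.angle p.1 v.1 q.1 ∈ A ↔ P v p q)) : cnt S A =
    #{t ∈ TD S | P t.1 t.2.1 t.2.2} := by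
  unfold cnt
  symm
  refine card_bij (fun t _ => (t.2.1.1, t.1.1, t.2.2.1)) ?_ ?_ ?_
  · rintro ⟨v, p, q⟩ h
    simp only [TD, mem_filter, mem_univ, true_and] at h
    rw [mem_filter, mem_trip]
    exact ⟨⟨⟨p.2, v.2, q.2⟩, fun e => h.1.1 (Subtype.ext e.symm), fun e => h.1.2.2 (Subtype.ext e),
      fun e => h.1.2.1 (Subtype.ext e)⟩, (hP v p q h.1.1 h.1.2.1 h.1.2.2).2 h.2⟩
  · rintro ⟨v, p, q⟩ _ ⟨v', p', q'⟩ _ e
    simp only [Prod.mk.injEq] at e
    obtain ⟨e1, e2, e3⟩ := e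
    rw [Subtype.ext e1, Subtype.ext e2, Subtype.ext e3]
  · rintro ⟨p, v, q⟩ h
    rw [mem_filter, mem_trip] at h
    obtain ⟨⟨⟨hp, hv, hq⟩, h1, h2, h3⟩, h4⟩ := h
    refine ⟨(⟨v, hv⟩, ⟨p, hp⟩, ⟨q, hq⟩), ?_, rfl⟩
    have e1 : (⟨v, hv⟩ : S) ≠ ⟨p, hp⟩ := fun e => h1 (congrArg Subtype.val e).symm
    have e2 : (⟨p, hp⟩ : S) ≠ ⟨q, hq⟩ := fun e => h3 (congrArg Subtype.val e)
    have e3 : (⟨v, hv⟩ : S) ≠ ⟨q, hq⟩ := fun e => h2 (congrArg Subtype.val e)
    rw [mem_filter]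
    refine ⟨?_, (hP _ _ _ e1 e2 e3).1 h4⟩
    simp only [TD, mem_filter, mem_univ, true_and]
    exact ⟨e1, e2, e3⟩

/-- a symmetric condition: twice the number of positively oriented triples -/
theorem card_sym {ι : Type*} [Fintype ι] (x y : ι → ℝ)
    (hg : ∀ v p q : ι, v ≠ p → p ≠ q → v ≠ q → cr x y v p q ≠ 0) (P : ι → ι → ι → Prop)
    (hP : ∀ v p q, P v p q → P v q p) :
    #{t ∈ TD ι | P t.1 t.2.1 t.2.2} = 2 * #{t ∈ TR x y | P t.1 t.2.1 t.2.2} := by
  have h1 : ({t ∈ TD ι | P t.1 t.2.1 t.2.2} : Finset (ι × ι × ι)) =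
      {t ∈ TR x y | P t.1 t.2.1 t.2.2} ∪
      ({t ∈ TR x y | P t.1 t.2.1 t.2.2} : Finset (ι × ι × ι)).image
        (fun t => (t.1, t.2.2, t.2.1)) := by
    ext ⟨v, p, q⟩
    simp only [TD, TR, mem_union, mem_filter, mem_univ, true_and, mem_image, Prod.mk.injEq,
      Prod.exists]
    constructor
    · rintro ⟨⟨h1, h2, h3⟩, h4⟩
      rcases lt_or_gt_of_ne (hg v p q h1 h2 h3) with h | h
      · right
        refine ⟨v, q, p, ⟨?_, hP _ _ _ h4⟩, rfl, rfl, rfl⟩
        rw [cr_swap]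
        linarith
      · left
        exact ⟨h, h4⟩
    · rintro (h | ⟨a, b, c, h, rfl, rfl, rfl⟩)
      · exact ⟨distinct_of_cr h.1.ne', h.2⟩
      · obtain ⟨h1, h2, h3⟩ := distinct_of_cr h.1.ne'
        exact ⟨⟨h3, h2.symm, h1⟩, hP _ _ _ h.2⟩
  rw [h1, card_union_of_disjoint, card_image_of_injective]
  · ring
  · rintro ⟨a, b, c⟩ ⟨a', b', c'⟩ h
    simp only [Prod.mk.injEq] at h
    obtain ⟨rfl, rfl, rfl⟩ := h
    rfl
  · rw [disjoint_left]
    rintro ⟨v, p, q⟩ h2 h3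
    simp only [TR, mem_filter, mem_univ, true_and, mem_image, Prod.mk.injEq, Prod.exists] at h2 h3
    obtain ⟨a, b, c, h, rfl, rfl, rfl⟩ := h3
    have h4 := h2.1
    rw [cr_swap] at h4
    linarith [h.1]

theorem cnt_Ioi (S : Finset Pt) (hS : GenPos S) :
    cnt S (Set.Ioi (Real.pi / 2)) = 2 * #(TO (X S) (Y S)) := by
  rw [cnt_eq S (Set.Ioi (Real.pi / 2)) (fun v p q => dt (X S) (Y S) v p q < 0)
    (fun v p q h1 _ h3 => angle_gt_iff S v p q h1.symm h3.symm),
    card_sym (X S) (Y S) (gen S hS) (fun v p q => dt (X S) (Y S) v p q < 0)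
    (fun v p q h => by rwa [dt_swap])]
  congr 2
  ext t
  simp only [TR, TO, mem_filter, mem_univ, true_and]

theorem cnt_Ici (S : Finset Pt) (hS : GenPos S) :
    cnt S (Set.Ici (Real.pi / 2)) = 2 * (#(TO (X S) (Y S)) + #(TZ (X S) (Y S))) := by
  rw [cnt_eq S (Set.Ici (Real.pi / 2)) (fun v p q => dt (X S) (Y S) v p q ≤ 0)
    (fun v p q h1 _ h3 => angle_ge_iff S v p q h1.symm h3.symm),
    card_sym (X S) (Y S) (gen S hS) (fun v p q => dt (X S) (Y S) v p q ≤ 0)
    (fun v p q h => by rwa [dt_swap])]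
  congr 1
  rw [← card_union_of_disjoint]
  · congr 1
    ext t
    simp only [TR, TO, TZ, mem_union, mem_filter, mem_univ, true_and]
    constructor
    · rintro ⟨h2, h3⟩
      rcases h3.lt_or_eq with h4 | h4
      · exact Or.inl ⟨h2, h4⟩
      · exact Or.inr ⟨h2, h4⟩
    · rintro (⟨h2, h3⟩ | ⟨h2, h3⟩)
      · exact ⟨h2, h3.le⟩
      · exact ⟨h2, h3.le⟩
  · rw [disjoint_left]
    intro t h2 h3
    simp only [TO, TZ, mem_filter, mem_univ, true_and] at h2 h3
    linarith [h2.2, h3.2]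

/-- the sum of the brackets at level `κ` -/
noncomputable def brk (S : Finset Pt) (κ : ℕ) : ℤ := ∑ v : S, (br κ (X S) (Y S) v : ℤ)

/-- lower bound for the number of non-acute angles of every set -/
theorem cnt_Ici_ge (S : Finset Pt) (hS : GenPos S) (κ : ℕ) :
    (S.card : ℤ) * (S.card - 1) * (S.card - 2) + 2 * brk S κ ≤
      cnt S (Set.Ici (Real.pi / 2)) + 6 * (((S.card - κ).choose 3 : ℕ) : ℤ) +
        2 * ((S.card : ℤ) * (S.card - 1) * κ) := by
  have h1 := acute_le κ (X S) (Y S) (xy_inj S) (gen S hS)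
  have h2 := two_card_TR (X S) (Y S) (gen S hS)
  have h3 := card_TR (X S) (Y S)
  have h4 := card_TD (ι := S)
  have h5 := cnt_Ici S hS
  rw [Fintype.card_coe] at h1 h4
  rw [← h4, ← h2, h3, h5]
  unfold brk
  push_cast
  linarith

/-- angles larger than a right angle -/
theorem cnt_Ioi_ge (S : Finset Pt) (hS : GenPos S) :
    (cnt S (Set.Ici (Real.pi / 2)) : ℤ) ≤
      cnt S (Set.Ioi (Real.pi / 2)) + 2 * ((S.card : ℤ) * (S.card - 1)) := by
  have h1 := cnt_Ici S hS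
  have h2 := cnt_Ioi S hS
  have h3 := card_TZ_le (X S) (Y S) (gen S hS)
  rw [Fintype.card_coe] at h3
  have h4 : ((#(TZ (X S) (Y S)) : ℕ) : ℤ) ≤ (S.card : ℤ) * (S.card - 1) := by
    rcases Nat.eq_zero_or_pos S.card with h | h
    · rw [h] at h3 ⊢
      simp at h3 ⊢
      exact h3
    · have h5 : ((#(TZ (X S) (Y S)) : ℕ) : ℤ) ≤ ((S.card * (S.card - 1) : ℕ) : ℤ) := by
        exact_mod_cast h3
      rw [Nat.cast_mul, Nat.cast_sub h] at h5
      exact_mod_cast h5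
  rw [h1, h2]
  push_cast
  linarith

/-- separation of a point of a convex position set -/
theorem sep (S : Finset Pt) (hc : ConvexPos S) (v : S) : ∃ a b : ℝ, ∀ q : S, q ≠ v →
    0 < a * (X S q - X S v) + b * (Y S q - Y S v) := by
  have h1 := hc v.1 v.2
  have h2 : IsClosed (convexHull ℝ ((S : Set Pt) \ {v.1})) :=
    ((S.finite_toSet.subset Set.sdiff_subset).isCompact_convexHull (𝕜 := ℝ)).isClosed
  obtain ⟨f, u, hu, hf⟩ := geometric_hahn_banach_point_closed (convex_convexHull ℝ _) h2 h1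
  have key : ∀ z : Pt, f z = z 0 * f (EuclideanSpace.single 0 1) +
      z 1 * f (EuclideanSpace.single 1 1) := by
    intro z
    have : z = z 0 • EuclideanSpace.single 0 (1 : ℝ) + z 1 • EuclideanSpace.single 1 (1 : ℝ) := by
      ext i
      fin_cases i <;> simp
    conv_lhs => rw [this]
    simp
  refine ⟨f (EuclideanSpace.single 0 1), f (EuclideanSpace.single 1 1), ?_⟩
  intro q hq
  have h3 : q.1 ∈ convexHull ℝ ((S : Set Pt) \ {v.1}) :=
    subset_convexHull ℝ _ ⟨q.2, fun e => hq (Subtype.ext e)⟩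
  have h4 := hf _ h3
  rw [key] at h4 hu
  simp only [X, Y]
  linarith

/-- points in convex position: the exact lower bound -/
theorem cnt_convex (S : Finset Pt) (hS : GenPos S) (hc : ConvexPos S) (κ : ℕ)
    (hκ : κ + 1 ≤ S.card) :
    (S.card : ℤ) * (S.card - 1) * (S.card - 2) + 2 * (S.card * (((κ + 1).choose 2 : ℕ) : ℤ)) ≤
      cnt S (Set.Ici (Real.pi / 2)) + 6 * (((S.card - κ).choose 3 : ℕ) : ℤ) +
        2 * ((S.card : ℤ) * (S.card - 1) * κ) := by
  have h1 := cnt_Ici_ge S hS κ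
  have h2 : (S.card : ℤ) * (((κ + 1).choose 2 : ℕ) : ℤ) ≤ brk S κ := by
    unfold brk
    have h3 : ∀ v : S, (((κ + 1).choose 2 : ℕ) : ℤ) ≤ (br κ (X S) (Y S) v : ℤ) := by
      intro v
      obtain ⟨a, b, hab⟩ := sep S hc v
      have h4 := bracket κ (X S) (Y S) (by rwa [Fintype.card_coe]) (gen S hS) v a b hab
      exact_mod_cast h4
    have h5 := card_nsmul_le_sum (univ : Finset S) (fun v => (br κ (X S) (Y S) v : ℤ)) _
      (fun v _ => h3 v)
    rwa [nsmul_eq_mul, card_univ, Fintype.card_coe] at h5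
  linarith

end Pool.Agent.AK
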