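import Pool.Agent.AK.Rank

set_option autoImplicit false

/-!
# The half plane lemma
-/

namespace Pool.Agent.AK

open Finset Classical

variable {ι : Type*} [Fintype ι]

/-- elevation of `q` seen from `v` -/
private noncomputable def sl (x y : ι → ℝ) (v q : ι) : ℝ := (y q - y v) / (x q - x v)

private theorem mem0 {x y : ι → ℝ} {v q : ι} : q ∈ Q0 x y v ↔ x v < x q ∧ y v < y q := by
  simp [Q0]

private theorem mem1 {x y : ι → ℝ} {v q : ι} : q ∈ Q1 x y v ↔ x q < x v ∧ y v < y q := by
  simp [Q1]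

private theorem sl_Q0 {x y : ι → ℝ} {v p q : ι} (hp : p ∈ Q0 x y v) (hq : q ∈ Q0 x y v) :
    sl x y v p < sl x y v q ↔ 0 < cr x y v p q := by
  rw [mem0] at hp hq
  have h1 : 0 < x p - x v := by linarith [hp.1]
  have h2 : 0 < x q - x v := by linarith [hq.1]
  rw [sl, sl, div_lt_div_iff₀ h1 h2, cr]
  constructor <;> intro h <;> linarith

omit [Fintype ι] in
private theorem sl_inj {x y : ι → ℝ}
    (hg : ∀ v p q : ι, v ≠ p → p ≠ q → v ≠ q → cr x y v p q ≠ 0) {v p q : ι}
    (hp : x p ≠ x v) (hq : x q ≠ x v) (h : sl x y v p = sl x y v q) : p = q := by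
  by_contra hne
  have h1 : x p - x v ≠ 0 := sub_ne_zero.2 hp
  have h2 : x q - x v ≠ 0 := sub_ne_zero.2 hq
  rw [sl, sl, div_eq_div_iff h1 h2] at h
  refine hg v p q ?_ hne ?_ ?_
  · rintro rfl
    exact hp rfl
  · rintro rfl
    exact hq rfl
  · rw [cr]
    linarith

/-- non-acute partners are low: right side -/
private theorem low0 {x y : ι → ℝ} {v p q l : ι} (hl : l ∈ Q1 x y v) (hp : p ∈ Q0 x y v)
    (hq : q ∈ Q0 x y v) (h : dt x y v p l ≤ 0) (hs : sl x y v q < sl x y v p) :
    dt x y v q l ≤ 0 := by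
  rw [sl_Q0 hq hp, cr] at hs
  rw [mem0] at hp hq
  rw [mem1] at hl
  rw [dt] at h ⊢
  have h1 : 0 < x p - x v := by linarith [hp.1]
  have h2 : 0 < x q - x v := by linarith [hq.1]
  have h3 : 0 < y p - y v := by linarith [hp.2]
  have h4 : 0 < y q - y v := by linarith [hq.2]
  have h5 : 0 < y l - y v := by linarith [hl.2]
  have h6 : x l - x v < 0 := by linarith [hl.1]
  generalize x p - x v = a at *
  generalize x q - x v = b at *
  generalize y p - y v = c at *
  generalize y q - y v = d at *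
  generalize y l - y v = e at *
  generalize x l - x v = f at *
  -- a f + c e <= 0, b c - d a > 0; b f + d e <= 0
  by_contra hcon
  push Not at hcon
  have h7 : a * (b * f + d * e) > 0 := mul_pos h1 hcon
  have h8 : b * (a * f + c * e) ≤ 0 := mul_nonpos_of_nonneg_of_nonpos h2.le h
  have h9 : 0 < (b * c - d * a) * e := mul_pos hs h5
  nlinarith

/-- non-acute partners are low: left side -/
private theorem low1 {x y : ι → ℝ} {v p q r : ι} (hr : r ∈ Q0 x y v) (hp : p ∈ Q1 x y v)
    (hq : q ∈ Q1 x y v) (h : dt x y v r p ≤ 0) (hs : -sl x y v q < -sl x y v p) :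
    dt x y v r q ≤ 0 := by
  rw [mem0] at hr
  rw [mem1] at hp hq
  rw [dt] at h ⊢
  rw [sl, sl] at hs
  have h1 : x p - x v < 0 := by linarith [hp.1]
  have h2 : x q - x v < 0 := by linarith [hq.1]
  have h3 : 0 < y p - y v := by linarith [hp.2]
  have h4 : 0 < y q - y v := by linarith [hq.2]
  have h5 : 0 < y r - y v := by linarith [hr.2]
  have h6 : 0 < x r - x v := by linarith [hr.1]
  generalize x p - x v = a at *
  generalize x q - x v = b at *
  generalize y p - y v = c at *
  generalize y q - y v = d at *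
  generalize y r - y v = e at *
  generalize x r - x v = f at *
  -- f a + e c <= 0; -(d/b) < -(c/a)
  have hs' : c / a < d / b := by linarith
  have hab : 0 < a * b := mul_pos_of_neg_of_neg h1 h2
  have e1 : c / a * (a * b) = c * b := by
    have := h1.ne
    field_simp
  have e2 : d / b * (a * b) = d * a := by
    have := h2.ne
    field_simp
  have hs2 := mul_lt_mul_of_pos_right hs' hab
  rw [e1, e2] at hs2
  by_contra hcon
  push Not at hcon
  have h7 : a * (f * b + e * d) < 0 := mul_neg_of_neg_of_pos h1 hcon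
  have h8 : 0 ≤ b * (f * a + e * c) := mul_nonneg_of_nonpos_of_nonpos h2.le h
  have h9 : 0 < e * (d * a - c * b) := mul_pos h5 (sub_pos.2 hs2)
  nlinarith

/-- the sector at `v` -/
private theorem al_eq (x y : ι → ℝ) (hx : Function.Injective x) (hy : Function.Injective y)
    {v p : ι} (hp : p ∈ Q0 x y v) :
    al x y v p + #{q ∈ Q1 x y v | dt x y v p q ≤ 0} =
      #(Q1 x y v) + #{q ∈ Q0 x y v | sl x y v p < sl x y v q} := by
  have h1 : ({q | 0 < cr x y v p q ∧ 0 < dt x y v p q} : Finset ι) =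
      {q ∈ Q0 x y v | sl x y v p < sl x y v q} ∪ {q ∈ Q1 x y v | ¬ dt x y v p q ≤ 0} := by
    ext q
    rw [mem_union, mem_filter, mem_filter, mem_filter]
    constructor
    · rintro ⟨-, h2, h3⟩
      have hqv : q ≠ v := by
        rintro rfl
        simp [cr] at h2
      have hxq : x q ≠ x v := fun h => hqv (hx h)
      have hyq : y q ≠ y v := fun h => hqv (hy h)
      have hp' := hp
      rw [mem0] at hp'
      have a1 : 0 < x p - x v := by linarith [hp'.1]
      have a2 : 0 < y p - y v := by linarith [hp'.2]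
      rcases lt_or_gt_of_ne hyq with h4 | h4
      · exfalso
        have a3 : y q - y v < 0 := by linarith
        rcases lt_or_gt_of_ne hxq with h5 | h5
        · have a4 : x q - x v < 0 := by linarith
          rw [dt] at h3
          nlinarith [mul_pos_of_neg_of_neg (neg_neg_of_pos a1) a4,
            mul_pos_of_neg_of_neg (neg_neg_of_pos a2) a3]
        · have a4 : 0 < x q - x v := by linarith
          rw [cr] at h2
          nlinarith [mul_pos_of_neg_of_neg (neg_neg_of_pos a1) a3, mul_pos a2 a4]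
      · rcases lt_or_gt_of_ne hxq with h5 | h5
        · right
          exact ⟨mem1.2 ⟨h5, h4⟩, not_le.2 h3⟩
        · left
          have h6 : q ∈ Q0 x y v := mem0.2 ⟨h5, h4⟩
          exact ⟨h6, (sl_Q0 hp h6).2 h2⟩
    · rintro (⟨h2, h3⟩ | ⟨h2, h3⟩)
      · refine ⟨mem_univ _, (sl_Q0 hp h2).1 h3, ?_⟩
        rw [mem0] at hp h2
        rw [dt]
        have a1 : 0 < x p - x v := by linarith [hp.1]
        have a2 : 0 < y p - y v := by linarith [hp.2]
        have a3 : 0 < x q - x v := by linarith [h2.1]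
        have a4 : 0 < y q - y v := by linarith [h2.2]
        positivity
      · refine ⟨mem_univ _, ?_, not_le.1 h3⟩
        rw [mem0] at hp
        rw [mem1] at h2
        rw [cr]
        have a1 : 0 < x p - x v := by linarith [hp.1]
        have a2 : 0 < y p - y v := by linarith [hp.2]
        have a3 : x q - x v < 0 := by linarith [h2.1]
        have a4 : 0 < y q - y v := by linarith [h2.2]
        nlinarith [mul_pos a1 a4, mul_neg_of_pos_of_neg a2 a3]
  have h2 : Disjoint {q ∈ Q0 x y v | sl x y v p < sl x y v q}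
      {q ∈ Q1 x y v | ¬ dt x y v p q ≤ 0} := by
    rw [disjoint_left]
    intro q h3 h4
    rw [mem_filter, mem0] at h3
    rw [mem_filter, mem1] at h4
    linarith [h3.1.1, h4.1.1]
  have h3 := card_filter_add_card_filter_not (s := Q1 x y v) (fun q => dt x y v p q ≤ 0)
  rw [al, h1, card_union_of_disjoint h2]
  omega

private theorem card_up (x y : ι → ℝ) (hx : Function.Injective x) (v : ι) :
    #(Up y v) = #(Q0 x y v) + #(Q1 x y v) := by
  have h1 : Up y v = Q0 x y v ∪ Q1 x y v := by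
    ext q
    rw [mem_union, mem0, mem1, Up, mem_filter]
    constructor
    · rintro ⟨-, h⟩
      have hqv : q ≠ v := by
        rintro rfl
        exact lt_irrefl _ h
      rcases lt_or_gt_of_ne (fun h' => hqv (hx h') : x q ≠ x v) with h5 | h5
      · exact Or.inr ⟨h5, h⟩
      · exact Or.inl ⟨h5, h⟩
    · rintro (h | h)
      · exact ⟨mem_univ _, h.2⟩
      · exact ⟨mem_univ _, h.2⟩
  rw [h1, card_union_of_disjoint]
  rw [disjoint_left]
  intro q h3 h4
  rw [mem0] at h3
  rw [mem1] at h4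
  linarith [h3.1, h4.1]

private theorem between {x y : ι → ℝ} (hx : Function.Injective x) {v r l : ι}
    (hr : r ∈ Q0 x y v) (hl : l ∈ Q1 x y v) :
    #{q | y v < y q ∧ x l < x q ∧ x q < x r} =
      #{q ∈ Q0 x y v | -x r < -x q} + #{q ∈ Q1 x y v | x l < x q} := by
  rw [mem0] at hr
  rw [mem1] at hl
  rw [← card_union_of_disjoint]
  · congr 1
    ext q
    rw [mem_union, mem_filter, mem_filter, mem_filter, mem0, mem1]
    constructor
    · rintro ⟨-, h1, h2, h3⟩
      have hqv : q ≠ v := by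
        rintro rfl
        exact lt_irrefl _ h1
      rcases lt_or_gt_of_ne (fun h' => hqv (hx h') : x q ≠ x v) with h5 | h5
      · exact Or.inr ⟨⟨h5, h1⟩, h2⟩
      · exact Or.inl ⟨⟨h5, h1⟩, by linarith⟩
    · rintro (⟨⟨h1, h2⟩, h3⟩ | ⟨⟨h1, h2⟩, h3⟩)
      · exact ⟨mem_univ _, h2, by linarith [hl.1], by linarith⟩
      · exact ⟨mem_univ _, h2, h3, by linarith [hr.1]⟩
  · rw [disjoint_left]
    intro q h3 h4
    rw [mem_filter, mem0] at h3
    rw [mem_filter, mem1] at h4
    linarith [h3.1.1, h4.1.1]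

/-- acute corners at `v` that start in the upper right quadrant -/
theorem half (κ : ℕ) (x y : ι → ℝ) (hx : Function.Injective x) (hy : Function.Injective y)
    (hg : ∀ v p q : ι, v ≠ p → p ≠ q → v ≠ q → cr x y v p q ≠ 0) (v : ι) :
    ∑ p ∈ Q0 x y v, (al x y v p - κ) + (#(Q1 x y v) - κ).choose 2 + #(NB κ x y v) ≤
      (#(Up y v) - κ).choose 2 := by
  have hi0 : Set.InjOn (sl x y v) (Q0 x y v) := by
    intro p hp q hq h
    rw [mem_coe, mem0] at hp hq
    exact sl_inj hg hp.1.ne' hq.1.ne' h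
  have hi1 : Set.InjOn (fun q => -sl x y v q) (Q1 x y v) := by
    intro p hp q hq h
    rw [mem_coe, mem1] at hp hq
    exact sl_inj hg hp.1.ne hq.1.ne (neg_injective h)
  set rho : ι → ℕ := fun p => #{q ∈ Q0 x y v | sl x y v p < sl x y v q} with hrho
  set el : ι → ℕ := fun l => #{q ∈ Q1 x y v | -sl x y v l < -sl x y v q} with hel
  set Na : ι → ℕ := fun p => #{q ∈ Q1 x y v | dt x y v p q ≤ 0} with hNa
  -- the sum of the corners
  have e1 : ∑ p ∈ Q0 x y v, (al x y v p - κ) +
      ∑ p ∈ Q0 x y v, min (Na p) (#(Q1 x y v) + rho p - κ) =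
      ∑ p ∈ Q0 x y v, (#(Q1 x y v) + rho p - κ) := by
    rw [← sum_add_distrib]
    apply sum_congr rfl
    intro p hp
    have h1 : al x y v p + Na p = #(Q1 x y v) + rho p := al_eq x y hx hy hp
    have h2 : min (Na p) (#(Q1 x y v) + rho p - κ) = Na p ∨
      min (Na p) (#(Q1 x y v) + rho p - κ) = #(Q1 x y v) + rho p - κ := min_choice _ _
    have h3 := min_le_left (Na p) (#(Q1 x y v) + rho p - κ)
    have h4 := min_le_right (Na p) (#(Q1 x y v) + rho p - κ)
    omega
  have e2 : ∑ p ∈ Q0 x y v, (#(Q1 x y v) + rho p - κ) =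
      ∑ i ∈ range (#(Q0 x y v)), (#(Q1 x y v) + i - κ) :=
    sum_rank (Q0 x y v) (sl x y v) hi0 (fun i => #(Q1 x y v) + i - κ)
  have e3 := sum_choose1 (#(Q1 x y v)) (#(Q0 x y v)) κ
  have e4 := card_up x y hx v
  -- the bad pairs
  have e5 : #(NB κ x y v) ≤ ∑ p ∈ Q0 x y v, min (Na p) (#(Q1 x y v) + rho p - κ) := by
    have f1 : #(NB κ x y v) = ∑ r ∈ Q0 x y v, #{l ∈ {l ∈ Q1 x y v | dt x y v r l ≤ 0} |
        κ - #{q ∈ Q0 x y v | -x r < -x q} ≤ #{q ∈ Q1 x y v | x l < x q}} := by
      rw [← card_sigma]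
      apply card_bij (fun (rl : ι × ι) _ => (⟨rl.1, rl.2⟩ : Σ _ : ι, ι))
      · rintro ⟨r, l⟩ h
        rw [NB, mem_filter] at h
        obtain ⟨-, h1, h2, h3, h4⟩ := h
        rw [between hx h1 h2] at h4
        rw [mem_sigma]
        refine ⟨h1, ?_⟩
        rw [mem_filter, mem_filter]
        exact ⟨⟨h2, h3⟩, by dsimp only at h4 ⊢; omega⟩
      · rintro ⟨r, l⟩ - ⟨r', l'⟩ - h
        simp only [Sigma.mk.injEq, heq_eq_eq] at h
        rw [h.1, h.2]
      · rintro ⟨r, l⟩ h
        rw [mem_sigma, mem_filter, mem_filter] at h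
        obtain ⟨h1, ⟨h2, h3⟩, h4⟩ := h
        refine ⟨(r, l), ?_, rfl⟩
        rw [NB, mem_filter]
        refine ⟨mem_univ _, h1, h2, h3, ?_⟩
        rw [between hx h1 h2]
        dsimp only at h4 ⊢
        omega
    have f2 : ∀ r ∈ Q0 x y v, #{l ∈ {l ∈ Q1 x y v | dt x y v r l ≤ 0} |
        κ - #{q ∈ Q0 x y v | -x r < -x q} ≤ #{q ∈ Q1 x y v | x l < x q}} ≤
        #{l ∈ {l ∈ Q1 x y v | dt x y v r l ≤ 0} |
          κ - #{q ∈ Q0 x y v | -x r < -x q} ≤ el l} := by
      intro r hr
      exact exch (Q1 x y v) {l ∈ Q1 x y v | dt x y v r l ≤ 0} (filter_subset _ _) x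
        (fun q => -sl x y v q) hx.injOn hi1 (by
          intro p hp q hq h
          rw [mem_filter] at hp ⊢
          exact ⟨hq, low1 hr hp.1 hq hp.2 h⟩) _
    have f3 : ∑ r ∈ Q0 x y v, #{l ∈ {l ∈ Q1 x y v | dt x y v r l ≤ 0} |
          κ - #{q ∈ Q0 x y v | -x r < -x q} ≤ el l} =
        ∑ l ∈ Q1 x y v, #{r ∈ {r ∈ Q0 x y v | dt x y v r l ≤ 0} |
          κ - el l ≤ #{q ∈ Q0 x y v | -x r < -x q}} := by
      simp only [card_filter, sum_filter]
      rw [sum_comm]
      apply sum_congr rfl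
      intro l _
      apply sum_congr rfl
      intro r _
      by_cases h : dt x y v r l ≤ 0
      · simp only [if_pos h]
        apply if_congr _ rfl rfl
        simp only [card_filter, sum_filter] at *
        omega
      · simp only [if_neg h]
    have f4 : ∀ l ∈ Q1 x y v, #{r ∈ {r ∈ Q0 x y v | dt x y v r l ≤ 0} |
          κ - el l ≤ #{q ∈ Q0 x y v | -x r < -x q}} ≤
        #{r ∈ {r ∈ Q0 x y v | dt x y v r l ≤ 0} | κ - el l ≤ rho r} := by
      intro l hl
      exact exch (Q0 x y v) {r ∈ Q0 x y v | dt x y v r l ≤ 0} (filter_subset _ _)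
        (fun q => -x q) (sl x y v) (fun p _ q _ h => hx (neg_injective h)) hi0 (by
          intro p hp q hq h
          rw [mem_filter] at hp ⊢
          exact ⟨hq, low0 hl hp.1 hq hp.2 h⟩) _
    have f5 : ∑ l ∈ Q1 x y v, #{r ∈ {r ∈ Q0 x y v | dt x y v r l ≤ 0} | κ - el l ≤ rho r} =
        ∑ r ∈ Q0 x y v, #{l ∈ {l ∈ Q1 x y v | dt x y v r l ≤ 0} | κ - rho r ≤ el l} := by
      simp only [card_filter _ (filter _ _), sum_filter]
      rw [sum_comm]
      apply sum_congr rfl
      intro l _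
      apply sum_congr rfl
      intro r _
      by_cases h : dt x y v l r ≤ 0
      · simp only [if_pos h]
        apply if_congr _ rfl rfl
        omega
      · simp only [if_neg h]
    have f6 : ∀ r ∈ Q0 x y v,
        #{l ∈ {l ∈ Q1 x y v | dt x y v r l ≤ 0} | κ - rho r ≤ el l} ≤
        min (Na r) (#(Q1 x y v) + rho r - κ) := by
      intro r _
      apply le_min
      · exact card_le_card (filter_subset _ _)
      · have g1 : #{l ∈ {l ∈ Q1 x y v | dt x y v r l ≤ 0} | κ - rho r ≤ el l} ≤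
            #{l ∈ Q1 x y v | κ - rho r ≤ el l} :=
          card_le_card (filter_subset_filter _ (filter_subset _ _))
        have g2 : #{l ∈ Q1 x y v | κ - rho r ≤ el l} = #(Q1 x y v) - (κ - rho r) :=
          card_rank (Q1 x y v) (fun q => -sl x y v q) hi1 (κ - rho r)
        omega
    calc #(NB κ x y v) ≤ _ := f1.le
      _ ≤ _ := sum_le_sum f2
      _ = _ := f3
      _ ≤ _ := sum_le_sum f4
      _ = _ := f5
      _ ≤ _ := sum_le_sum f6
  rw [e4, add_comm (#(Q0 x y v)) (#(Q1 x y v)), ← e3, ← e2, ← e1]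
  omega

end Pool.Agent.AK
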