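import Pool.Agent.AK.Defs

set_option autoImplicit false

/-!
# The weights
-/

namespace Pool.Agent.AK

open Finset Classical

variable {ι : Type*}

theorem Df_succ (g : ℕ → ℤ) (d k : ℕ) : (Df^[d] g) (k + 1) = (Df^[d] g) k + (Df^[d + 1] g) k := by
  rw [Function.iterate_succ_apply' Df d g]
  simp only [Df]
  ring

theorem Df1 (κ k : ℕ) : (Df^[1] (gK κ)) k = (((k - κ).choose 2 : ℕ) : ℤ) := by
  have h0 : (Df^[1] (gK κ)) k = gK κ (k + 1) - gK κ k := rfl
  rw [h0]
  simp only [gK]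
  rcases Nat.lt_or_ge k κ with hk | hk
  · have e1 : k - κ = 0 := by omega
    have e2 : k + 1 - κ = 0 := by omega
    rw [e1, e2]
    simp
  · obtain ⟨m, rfl⟩ : ∃ m, k = κ + m := ⟨k - κ, by omega⟩
    have e1 : κ + m - κ = m := by omega
    have e2 : κ + m + 1 - κ = m + 1 := by omega
    rw [e1, e2, Nat.choose_succ_succ' m 2]
    push_cast
    ring

theorem Df2 (κ k : ℕ) : (Df^[2] (gK κ)) k = ((k - κ : ℕ) : ℤ) := by
  have h0 := Df_succ (gK κ) 1 k
  rw [Df1, Df1] at h0
  have h1 : (Df^[2] (gK κ)) k = (((k + 1 - κ).choose 2 : ℕ) : ℤ) - (((k - κ).choose 2 : ℕ) : ℤ) := by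
    rw [h0]
    simp
  rw [h1]
  rcases Nat.lt_or_ge k κ with hk | hk
  · have e1 : k - κ = 0 := by omega
    have e2 : k + 1 - κ = 0 := by omega
    rw [e1, e2]
    simp
  · obtain ⟨m, rfl⟩ : ∃ m, k = κ + m := ⟨k - κ, by omega⟩
    have e1 : κ + m - κ = m := by omega
    have e2 : κ + m + 1 - κ = m + 1 := by omega
    rw [e1, e2, Nat.choose_succ_succ' m 1, Nat.choose_one_right]
    push_cast
    ring

theorem Df3 (κ k : ℕ) : (Df^[3] (gK κ)) k = if κ ≤ k then 1 else 0 := by
  have h0 := Df_succ (gK κ) 2 k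
  rw [Df2, Df2] at h0
  have h1 : (Df^[3] (gK κ)) k = ((k + 1 - κ : ℕ) : ℤ) - ((k - κ : ℕ) : ℤ) := by
    rw [h0]
    simp
  rw [h1]
  split_ifs with hk
  · omega
  · omega

theorem Df_nonneg (κ d k : ℕ) (hd : d ≤ 4) : 0 ≤ (Df^[d] (gK κ)) k := by
  interval_cases d
  · exact Int.natCast_nonneg _
  · rw [Df1]
    exact Int.natCast_nonneg _
  · rw [Df2]
    exact Int.natCast_nonneg _
  · rw [Df3]
    split_ifs <;> simp
  · have h0 := Df_succ (gK κ) 3 k
    rw [Df3, Df3] at h0
    have h1 : (Df^[4] (gK κ)) k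
        = (if κ ≤ k + 1 then (1 : ℤ) else 0) - (if κ ≤ k then (1 : ℤ) else 0) := by
      rw [h0]
      simp
    rw [h1]
    split_ifs <;> omega

private theorem sum_powerset_Df (g : ℕ → ℤ) (F : Finset ι) :
    ∀ d : ℕ, ∑ R ∈ F.powerset, (Df^[d + #R] g) 0 = (Df^[d] g) (#F) := by
  induction F using Finset.induction_on with
  | empty =>
    intro d
    simp
  | insert a s ha ih =>
    intro d
    rw [Finset.sum_powerset_insert ha, ih d, Finset.card_insert_of_notMem ha, Df_succ]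
    congr 1
    rw [← ih (d + 1)]
    refine Finset.sum_congr rfl fun R hR => ?_
    have haR : a ∉ R := fun h => ha (Finset.mem_powerset.1 hR h)
    rw [Finset.card_insert_of_notMem haR]
    have e : d + (#R + 1) = d + 1 + #R := by omega
    rw [e]

/-- sum of the weights over the sets between `D` and `D ∪ F` -/
theorem lam_between [Fintype ι] (κ : ℕ) (D F : Finset ι) (h : Disjoint D F) :
    ∑ R with D ⊆ R ∧ R ⊆ D ∪ F, om κ (#R) = (Df^[#D] (gK κ)) (#F) := by
  rw [← sum_powerset_Df (gK κ) F (#D)]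
  refine Finset.sum_bij' (fun R _ => R \ D) (fun R' _ => D ∪ R') ?_ ?_ ?_ ?_ ?_
  · intro R hR
    rw [Finset.mem_filter] at hR
    rw [Finset.mem_powerset]
    intro x hx
    rw [Finset.mem_sdiff] at hx
    rcases Finset.mem_union.1 (hR.2.2 hx.1) with h1 | h1
    · exact absurd h1 hx.2
    · exact h1
  · intro R' hR'
    rw [Finset.mem_powerset] at hR'
    rw [Finset.mem_filter]
    exact ⟨Finset.mem_univ _, Finset.subset_union_left, Finset.union_subset_union_right hR'⟩
  · intro R hR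
    rw [Finset.mem_filter] at hR
    exact Finset.union_sdiff_of_subset hR.2.1
  · intro R' hR'
    rw [Finset.mem_powerset] at hR'
    exact Finset.union_sdiff_cancel_left (Finset.disjoint_of_subset_right hR' h)
  · intro R hR
    rw [Finset.mem_filter] at hR
    have e : #D + #(R \ D) = #R := by
      rw [Finset.card_sdiff_of_subset hR.2.1]
      have := Finset.card_le_card hR.2.1
      omega
    show om κ (#R) = (Df^[#D + #(R \ D)] (gK κ)) 0
    rw [e]
    rfl

theorem lam_all [Fintype ι] (κ : ℕ) :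
    ∑ R : Finset ι, om κ (#R) = (((Fintype.card ι - κ).choose 3 : ℕ) : ℤ) := by
  have h0 := sum_powerset_Df (gK κ) (Finset.univ : Finset ι) 0
  rw [Finset.powerset_univ] at h0
  have h1 : ∑ R : Finset ι, om κ (#R) = ∑ R : Finset ι, (Df^[0 + #R] (gK κ)) 0 := by
    refine Finset.sum_congr rfl fun R _ => ?_
    rw [Nat.zero_add]
    rfl
  rw [h1, h0, Finset.card_univ]
  rfl

theorem om_zero (κ : ℕ) : om κ 0 = 0 := by
  have h0 : om κ 0 = (((0 - κ).choose 3 : ℕ) : ℤ) := rfl
  rw [h0, Nat.zero_sub]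
  simp

end Pool.Agent.AK
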