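import Pool.Agent.AK.Half
import Pool.Agent.AK.BoxC

set_option autoImplicit false

/-!
# The theorem on acute corners with at least `κ` points inside
-/

namespace Pool.Agent.AK

open Finset Classical

variable {ι : Type*} [Fintype ι]

theorem cr_rot (x y : ι → ℝ) : cr y (-x) = cr x y := by
  funext v p q
  simp only [cr, Pi.neg_apply]
  ring

theorem dt_rot (x y : ι → ℝ) : dt y (-x) = dt x y := by
  funext v p q
  simp only [dt, Pi.neg_apply]
  ring

theorem al_rot (x y : ι → ℝ) : al y (-x) = al x y := by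
  funext v p
  simp only [al, cr_rot, dt_rot]

theorem sum_up (κ : ℕ) (y : ι → ℝ) (hy : Function.Injective y) :
    ∑ v, (#(Up y v) - κ).choose 2 = (Fintype.card ι - κ).choose 3 := by
  have h1 := sum_rank (univ : Finset ι) y hy.injOn (fun i => (i - κ).choose 2)
  rw [sum_choose2, card_univ] at h1
  exact h1

private theorem main_split (x y : ι → ℝ) (hx : Function.Injective x) (hy : Function.Injective y)
    (v : ι) (F : ι → ℕ) (hF : F v = 0) :
    ∑ p, F p = ∑ p ∈ Q0 x y v, F p + ∑ p ∈ Q0 y (-x) v, F p + ∑ p ∈ Q0 (-x) (-y) v, F p +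
      ∑ p ∈ Q0 (-y) x v, F p := by
  have key : ∀ p, F p = (if x v < x p ∧ y v < y p then F p else 0) +
      (if y v < y p ∧ (-x) v < (-x) p then F p else 0) +
      (if (-x) v < (-x) p ∧ (-y) v < (-y) p then F p else 0) +
      (if (-y) v < (-y) p ∧ x v < x p then F p else 0) := by
    intro p
    by_cases hp : p = v
    · subst hp
      simp [hF]
    · have h1 : x p ≠ x v := fun h => hp (hx h)
      have h2 : y p ≠ y v := fun h => hp (hy h)
      simp only [Pi.neg_apply, neg_lt_neg_iff]
      rcases lt_or_gt_of_ne h1 with h1 | h1 <;> rcases lt_or_gt_of_ne h2 with h2 | h2 <;>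
        simp [h1, h2, not_lt.2 h1.le, not_lt.2 h2.le]
  rw [sum_congr rfl (fun p _ => key p)]
  simp only [sum_add_distrib, Q0, sum_filter]

/-- theorem (A) in coordinates -/
theorem thmA (κ : ℕ) (x y : ι → ℝ) (hx : Function.Injective x) (hy : Function.Injective y)
    (hg : ∀ v p q : ι, v ≠ p → p ≠ q → v ≠ q → cr x y v p q ≠ 0) :
    ∑ v, ∑ p, (al x y v p - κ) ≤ 3 * (Fintype.card ι - κ).choose 3 := by
  have hx' : Function.Injective (-x) := fun a b h => hx (by simpa using h)
  have hy' : Function.Injective (-y) := fun a b h => hy (by simpa using h)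
  have c1 : cr y (-x) = cr x y := cr_rot x y
  have c2 : cr (-x) (-y) = cr x y := (cr_rot y (-x)).trans c1
  have c3 : cr (-y) x = cr x y := by
    have := cr_rot (-x) (-y)
    rw [neg_neg] at this
    exact this.trans c2
  have a1 : al y (-x) = al x y := al_rot x y
  have a2 : al (-x) (-y) = al x y := (al_rot y (-x)).trans a1
  have a3 : al (-y) x = al x y := by
    have := al_rot (-x) (-y)
    rw [neg_neg] at this
    exact this.trans a2
  have h0 := fun v => half κ x y hx hy hg v
  have h1 := fun v => half κ y (-x) hy hx' (by rw [c1]; exact hg) v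
  have h2 := fun v => half κ (-x) (-y) hx' hy' (by rw [c2]; exact hg) v
  have h3 := fun v => half κ (-y) x hy' hx (by rw [c3]; exact hg) v
  rw [a1] at h1
  rw [a2] at h2
  rw [a3] at h3
  have hb := box_ineq κ x y hx hy
  have s0 := sum_le_sum (fun v (_ : v ∈ (univ : Finset ι)) => h0 v)
  have s1 := sum_le_sum (fun v (_ : v ∈ (univ : Finset ι)) => h1 v)
  have s2 := sum_le_sum (fun v (_ : v ∈ (univ : Finset ι)) => h2 v)
  have s3 := sum_le_sum (fun v (_ : v ∈ (univ : Finset ι)) => h3 v)
  rw [sum_up κ y hy] at s0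
  rw [sum_up κ (-x) hx'] at s1
  rw [sum_up κ (-y) hy'] at s2
  rw [sum_up κ x hx] at s3
  have hsp : ∑ v, ∑ p, (al x y v p - κ) =
      ∑ v, ∑ p ∈ Q0 x y v, (al x y v p - κ) + ∑ v, ∑ p ∈ Q0 y (-x) v, (al x y v p - κ) +
      ∑ v, ∑ p ∈ Q0 (-x) (-y) v, (al x y v p - κ) +
      ∑ v, ∑ p ∈ Q0 (-y) x v, (al x y v p - κ) := by
    rw [← sum_add_distrib, ← sum_add_distrib, ← sum_add_distrib]
    refine sum_congr rfl (fun v _ => ?_)
    refine main_split x y hx hy v (fun p => al x y v p - κ) ?_
    have : al x y v v = 0 := by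
      unfold al
      rw [card_eq_zero, filter_eq_empty_iff]
      intro q _ hq
      have h := hq.1
      simp [cr] at h
    simp [this]
  simp only [sum_add_distrib] at s0 s1 s2 s3 hb
  omega

end Pool.Agent.AK
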