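import Pool.Agent.AK.Defs

set_option autoImplicit false

/-!
# Ranks
-/

namespace Pool.Agent.AK

open Finset Classical

variable {ι : Type*}

/-- the numbers of larger elements are `0, 1, ..., |X| - 1` -/
theorem sum_rank (X : Finset ι) (f : ι → ℝ) (hf : Set.InjOn f X) (F : ℕ → ℕ) :
    ∑ p ∈ X, F (#{q ∈ X | f p < f q}) = ∑ i ∈ range (#X), F i := by
  induction X using Finset.induction_on_min_value f with
  | empty => simp
  | insert a s ha hmin ih =>
    have hs : Set.InjOn f s := hf.mono (by simp)
    have hlt : ∀ q ∈ s, f a < f q := by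
      intro q hq
      refine lt_of_le_of_ne (hmin q hq) ?_
      intro h
      have : a = q := hf (by simp) (by simp [hq]) h
      exact ha (this ▸ hq)
    rw [Finset.sum_insert ha, Finset.card_insert_of_notMem ha, Finset.sum_range_succ, add_comm,
      ← ih hs]
    congr 1
    · refine Finset.sum_congr rfl ?_
      intro p hp
      rw [Finset.filter_insert, if_neg (not_lt.2 (hlt p hp).le)]
    · rw [Finset.filter_insert, if_neg (lt_irrefl _), Finset.filter_true_of_mem hlt]

theorem card_rank (X : Finset ι) (f : ι → ℝ) (hf : Set.InjOn f X) (m : ℕ) :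
    #{p ∈ X | m ≤ #{q ∈ X | f p < f q}} = #X - m := by
  have h := sum_rank X f hf (fun i => if m ≤ i then 1 else 0)
  rw [Finset.card_filter]
  rw [h, ← Finset.card_filter]
  have h2 : (range (#X)).filter (fun i => m ≤ i) = Finset.Ico m (#X) := by
    ext i
    simp only [Finset.mem_filter, Finset.mem_range, Finset.mem_Ico]
    tauto
  rw [h2, Nat.card_Ico]

/-- exchange of the order: `T` is closed under smaller values of `g` -/
theorem exch (X T : Finset ι) (hT : T ⊆ X) (f g : ι → ℝ) (hf : Set.InjOn f X)
    (hg : Set.InjOn g X) (hup : ∀ p ∈ T, ∀ q ∈ X, g q < g p → q ∈ T) (m : ℕ) :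
    #{p ∈ T | m ≤ #{q ∈ X | f p < f q}} ≤ #{p ∈ T | m ≤ #{q ∈ X | g p < g q}} := by
  by_cases hc : ∀ t ∈ T, m ≤ #{q ∈ X | g t < g q}
  · have h1 : T.filter (fun p => m ≤ #{q ∈ X | g p < g q}) = T :=
      Finset.filter_true_of_mem hc
    rw [h1]
    exact Finset.card_filter_le _ _
  · push Not at hc
    obtain ⟨t, htT, htm⟩ := hc
    have hsub : X.filter (fun p => m ≤ #{q ∈ X | g p < g q})
        ⊆ T.filter (fun p => m ≤ #{q ∈ X | g p < g q}) := by
      intro p hp
      rw [Finset.mem_filter] at hp ⊢
      refine ⟨?_, hp.2⟩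
      rcases lt_trichotomy (g p) (g t) with hlt | heq | hgt
      · exact hup t htT p hp.1 hlt
      · have : p = t := hg hp.1 (hT htT) heq
        exact this ▸ htT
      · exfalso
        have hle : #{q ∈ X | g p < g q} ≤ #{q ∈ X | g t < g q} := by
          refine Finset.card_le_card ?_
          intro q hq
          rw [Finset.mem_filter] at hq ⊢
          exact ⟨hq.1, hgt.trans hq.2⟩
        have := hp.2
        omega
    calc #{p ∈ T | m ≤ #{q ∈ X | f p < f q}}
        ≤ #{p ∈ X | m ≤ #{q ∈ X | f p < f q}} :=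
          Finset.card_le_card (Finset.filter_subset_filter _ hT)
      _ = #X - m := card_rank X f hf m
      _ = #{p ∈ X | m ≤ #{q ∈ X | g p < g q}} := (card_rank X g hg m).symm
      _ ≤ _ := Finset.card_le_card hsub

theorem sum_choose1 (c m κ : ℕ) :
    ∑ i ∈ range m, (c + i - κ) + (c - κ).choose 2 = (c + m - κ).choose 2 := by
  induction m with
  | zero => simp
  | succ m ih =>
    rw [Finset.sum_range_succ]
    rcases Nat.lt_or_ge (c + m) κ with h | h
    · have h1 : c + m - κ = 0 := by omega
      have h2 : c + (m + 1) - κ = 0 := by omega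
      rw [h1] at ih ⊢
      rw [h2]
      simpa using ih
    · have h2 : c + (m + 1) - κ = (c + m - κ) + 1 := by omega
      rw [h2, Nat.choose_succ_succ' (c + m - κ) 1, Nat.choose_one_right, ← ih]
      ring

theorem sum_choose2 (n κ : ℕ) : ∑ i ∈ range n, (i - κ).choose 2 = (n - κ).choose 3 := by
  induction n with
  | zero => simp
  | succ n ih =>
    rw [Finset.sum_range_succ, ih]
    rcases Nat.lt_or_ge n κ with h | h
    · have h1 : n - κ = 0 := by omega
      have h2 : n + 1 - κ = 0 := by omega
      rw [h1, h2]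
      simp
    · have h2 : n + 1 - κ = (n - κ) + 1 := by omega
      rw [h2, Nat.choose_succ_succ' (n - κ) 2]
      ring

end Pool.Agent.AK
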