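import Pool.Agent.AK.Main

set_option autoImplicit false

/-!
# Theorem (A) without conditions on the frame
-/

namespace Pool.Agent.AK

open Finset Classical

variable {ι : Type*} [Fintype ι]

/-- a generic direction -/
theorem exists_frame (x y : ι → ℝ) (h : ∀ p q, x p = x q → y p = y q → p = q) :
    ∃ t : ℝ, Function.Injective (fun i => x i + t * y i) ∧
      Function.Injective (fun i => y i - t * x i) := by
  obtain ⟨t, ht⟩ := Infinite.exists_notMem_finset
    ((univ : Finset (ι × ι)).image (fun p => -(x p.1 - x p.2) / (y p.1 - y p.2)) ∪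
      (univ : Finset (ι × ι)).image (fun p => (y p.1 - y p.2) / (x p.1 - x p.2)))
  simp only [mem_union, mem_image, mem_univ, true_and, Prod.exists, not_or, not_exists] at ht
  obtain ⟨h1, h2⟩ := ht
  refine ⟨t, ?_, ?_⟩
  · intro p q hpq
    simp only at hpq
    by_cases hy : y p - y q = 0
    · refine h p q ?_ (sub_eq_zero.1 hy)
      rw [sub_eq_zero.1 hy] at hpq
      linarith
    · exfalso
      apply h1 p q
      rw [div_eq_iff hy]
      linarith
  · intro p q hpq
    simp only at hpq
    by_cases hx : x p - x q = 0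
    · refine h p q (sub_eq_zero.1 hx) ?_
      rw [sub_eq_zero.1 hx] at hpq
      linarith
    · exfalso
      apply h2 p q
      rw [div_eq_iff hx]
      linarith

theorem cr_turn (x y : ι → ℝ) (t : ℝ) (v p q : ι) :
    cr (fun i => x i + t * y i) (fun i => y i - t * x i) v p q = (1 + t ^ 2) * cr x y v p q := by
  simp only [cr]
  ring

theorem dt_turn (x y : ι → ℝ) (t : ℝ) (v p q : ι) :
    dt (fun i => x i + t * y i) (fun i => y i - t * x i) v p q = (1 + t ^ 2) * dt x y v p q := by
  simp only [dt]
  ring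

theorem al_turn (x y : ι → ℝ) (t : ℝ) :
    al (fun i => x i + t * y i) (fun i => y i - t * x i) = al x y := by
  funext v p
  unfold al
  congr 1
  ext q
  have h : (0 : ℝ) < 1 + t ^ 2 := by positivity
  simp only [mem_filter, mem_univ, true_and, cr_turn, dt_turn, mul_pos_iff_of_pos_left h]

/-- theorem (A) -/
theorem thmA' (κ : ℕ) (x y : ι → ℝ) (hxy : ∀ p q, x p = x q → y p = y q → p = q)
    (hg : ∀ v p q : ι, v ≠ p → p ≠ q → v ≠ q → cr x y v p q ≠ 0) :
    ∑ v, ∑ p, (al x y v p - κ) ≤ 3 * (Fintype.card ι - κ).choose 3 := by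
  obtain ⟨t, h1, h2⟩ := exists_frame x y hxy
  have h3 := thmA κ _ _ h1 h2 (fun v p q hvp hpq hvq => by
    rw [cr_turn]
    exact mul_ne_zero (by positivity) (hg v p q hvp hpq hvq))
  rwa [al_turn] at h3

end Pool.Agent.AK
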